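import Pool.Agent.Helper67.Rad.Drawing

set_option autoImplicit false

/-!
# Numerical bounds for the parameters (generated)
-/

namespace Pool.Agent.Helper67.Rad

theorem mulb {x y X Y a b Z c : ℝ} (hx : |x - X| ≤ a) (hy : |y - Y| ≤ b) (X' Y' : ℝ)
    (h1 : -X' ≤ X) (h2 : X ≤ X') (h3 : -Y' ≤ Y) (h4 : Y ≤ Y')
    (h5 : X' * b + Y' * a + a * b + (X * Y - Z) ≤ c)
    (h6 : X' * b + Y' * a + a * b - (X * Y - Z) ≤ c) : |x * y - Z| ≤ c := by
  have ha : 0 ≤ a := (abs_nonneg _).trans hx
  have hb : 0 ≤ b := (abs_nonneg _).trans hy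
  have hm : |x * y - X * Y| ≤ a * b + |X| * b + a * |Y| := by
    have h : x * y - X * Y = (x - X) * (y - Y) + X * (y - Y) + (x - X) * Y := by ring
    rw [h]
    refine (abs_add_three _ _ _).trans ?_
    rw [abs_mul, abs_mul, abs_mul]
    have h1 : |x - X| * |y - Y| ≤ a * b := mul_le_mul hx hy (abs_nonneg _) ha
    have h2 : |X| * |y - Y| ≤ |X| * b := mul_le_mul_of_nonneg_left hy (abs_nonneg _)
    have h3 : |x - X| * |Y| ≤ a * |Y| := mul_le_mul_of_nonneg_right hx (abs_nonneg _)
    linarith
  have hX : |X| ≤ X' := abs_le.2 ⟨h1, h2⟩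
  have hY : |Y| ≤ Y' := abs_le.2 ⟨h3, h4⟩
  have e1 := mul_le_mul_of_nonneg_right hX hb
  have e2 := mul_le_mul_of_nonneg_right hY ha
  rw [abs_le] at *
  constructor <;> linarith [hm.1, hm.2]

theorem sqrtb {v V d A e : ℝ} (hv : |v - V| ≤ d) (h0 : e ≤ A) (he : 0 ≤ e)
    (h1 : (A - e) ^ 2 ≤ V - d) (h2 : V + d ≤ (A + e) ^ 2) : |√v - A| ≤ e := by
  rw [abs_le] at *
  constructor
  · have : A - e ≤ √v := Real.le_sqrt_of_sq_le (by linarith [hv.1])
    linarith
  · have : √v ≤ A + e := by
      rw [Real.sqrt_le_left (by linarith)]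
      linarith [hv.2]
    linarith

theorem invb {v V d A e : ℝ} (hv : |v - V| ≤ d) (h0 : 0 < V - d)
    (h1 : 1 ≤ (A + e) * (V - d)) (h2 : (A - e) * (V + d) ≤ 1) : |v⁻¹ - A| ≤ e := by
  rw [abs_le] at *
  have hv0 : 0 < v := by linarith [hv.1]
  have hd : 0 ≤ d := by linarith [hv.1, hv.2]
  constructor
  · have h3 : (V + d)⁻¹ ≤ v⁻¹ := inv_anti₀ hv0 (by linarith [hv.2])
    have h4 : A - e ≤ (V + d)⁻¹ := by
      rw [← one_div, le_div_iff₀ (by linarith)]
      exact h2
    linarith
  · have h3 : v⁻¹ ≤ (V - d)⁻¹ := inv_anti₀ h0 (by linarith [hv.1])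
    have h4 : (V - d)⁻¹ ≤ A + e := by
      rw [inv_le_iff_one_le_mul₀ h0]
      exact h1
    linarith

noncomputable def hh (r : ℝ) : ℝ := √(1 + 2 * r)
noncomputable def ss (r : ℝ) : ℝ := √(r * (2 + r))
noncomputable def uu (r : ℝ) : ℝ := ((1 + r) * (1 + r))⁻¹
noncomputable def cc (r : ℝ) : ℝ := 1 - 2 * (r * r * uu r)
noncomputable def xD (r : ℝ) : ℝ := hh r * (2 * cc r - 1)
noncomputable def yD (r : ℝ) : ℝ := -(r * (2 * cc r + 1))
noncomputable def xB (r : ℝ) : ℝ := 2 * (uu r * (xD r + ss r * yD r))
noncomputable def yB (r : ℝ) : ℝ := 2 * (uu r * (yD r - ss r * xD r))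
noncomputable def xC (r : ℝ) : ℝ := 1 / 2 * xB r - 1 / 2 * (√3 * yB r)
noncomputable def yC (r : ℝ) : ℝ := 1 / 2 * (√3 * xB r) + 1 / 2 * yB r
noncomputable def xK (r : ℝ) : ℝ := hh r + √3 * r
noncomputable def gg (r : ℝ) : ℝ :=
  (xK r - xC r) * (xK r - xC r) + (2 * r - yC r) * (2 * r - yC r) - (1 + r) * (1 + r)

theorem case_a (r : ℝ) (hr : |r - (120607/2000000)| ≤ 0) :
    |gg r - (240683/125000000000)| ≤ (251/1000000000000) := by
  have hq : |√3 - (1732050807569/1000000000000)| ≤ (1/100000000000) := sqrtb (v := 3) (V := 3) (d := 0) (by norm_num) (by norm_num) (by norm_num) (by norm_num) (by norm_num)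
  have t1 : |(1 + 2 * r) - (1120607/1000000)| ≤ 0 := by
    rw [abs_le]; constructor <;> linarith [(abs_le.1 hr).1, (abs_le.1 hr).2]
  have hh' : |hh r - (264646816531/250000000000)| ≤ (1/100000000000) := sqrtb t1 (by norm_num) (by norm_num) (by norm_num) (by norm_num)
  have t2 : |(2 + r) - (4120607/2000000)| ≤ 0 := by
    rw [abs_le]; constructor <;> linarith [(abs_le.1 hr).1, (abs_le.1 hr).2]
  have t3 : |(r * (2 + r)) - (7765219507/62500000000)| ≤ (1/1000000000000) :=
    mulb hr t2 (3769/62500) (128769/62500) (by norm_num) (by norm_num) (by norm_num) (by norm_num) (by norm_num) (by norm_num)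
  have hs' : |ss r - (352481931611/1000000000000)| ≤ (3/250000000000) := sqrtb t3 (by norm_num) (by norm_num) (by norm_num) (by norm_num)
  have t4 : |(1 + r) - (2120607/2000000)| ≤ 0 := by
    rw [abs_le]; constructor <;> linarith [(abs_le.1 hr).1, (abs_le.1 hr).2]
  have t5 : |((1 + r) * (1 + r)) - (70265219507/62500000000)| ≤ (1/1000000000000) :=
    mulb t4 t4 (66269/62500) (66269/62500) (by norm_num) (by norm_num) (by norm_num) (by norm_num) (by norm_num) (by norm_num)
  have hu' : |uu r - (889487009911/1000000000000)| ≤ (11/1000000000000) := invb t5 (by norm_num) (by norm_num) (by norm_num)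
  have t6 : |(r * r) - (227282007/62500000000)| ≤ (1/1000000000000) :=
    mulb hr hr (3769/62500) (3769/62500) (by norm_num) (by norm_num) (by norm_num) (by norm_num) (by norm_num) (by norm_num)
  have t7 : |((r * r) * uu r) - (646926057/200000000000)| ≤ (1/1000000000000) :=
    mulb t6 hu' (3637/1000000) (55593/62500) (by norm_num) (by norm_num) (by norm_num) (by norm_num) (by norm_num) (by norm_num)
  have hc' : |cc r - (99353073943/100000000000)| ≤ (1/500000000000) := by
    show |(1 - 2 * (r * r * uu r)) - (99353073943/100000000000)| ≤ (1/500000000000)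
    rw [abs_le]; constructor <;> linarith [(abs_le.1 t7).1, (abs_le.1 t7).2]
  have t8 : |(2 * cc r - 1) - (49353073943/50000000000)| ≤ (1/250000000000) := by
    rw [abs_le]; constructor <;> linarith [(abs_le.1 hc').1, (abs_le.1 hc').2]
  have t9 : |(hh r * (2 * cc r - 1)) - (1044890712403/1000000000000)| ≤ (3/200000000000) :=
    mulb hh' t8 (264647/250000) (493531/500000) (by norm_num) (by norm_num) (by norm_num) (by norm_num) (by norm_num) (by norm_num)
  have hxD : |xD r - (1044890712403/1000000000000)| ≤ (3/200000000000) := by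
    have e : xD r = (hh r * (2 * cc r - 1)) := by rfl
    rw [e]; exact t9
  have t10 : |(2 * cc r + 1) - (149353073943/50000000000)| ≤ (1/250000000000) := by
    rw [abs_le]; constructor <;> linarith [(abs_le.1 hc').1, (abs_le.1 hc').2]
  have t11 : |(r * (2 * cc r + 1)) - (18013026189/100000000000)| ≤ (1/1000000000000) :=
    mulb hr t10 (3769/62500) (1493531/500000) (by norm_num) (by norm_num) (by norm_num) (by norm_num) (by norm_num) (by norm_num)
  have hyD : |yD r - (-(18013026189/100000000000))| ≤ (1/1000000000000) := by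
    show |-(r * (2 * cc r + 1)) - (-(18013026189/100000000000))| ≤ (1/1000000000000)
    rw [abs_le]; constructor <;> linarith [(abs_le.1 t11).1, (abs_le.1 t11).2]
  have t12 : |(ss r * yD r) - (-(63492662653/1000000000000))| ≤ (3/1000000000000) :=
    mulb hs' hyD (176241/500000) (180131/1000000) (by norm_num) (by norm_num) (by norm_num) (by norm_num) (by norm_num) (by norm_num)
  have t13 : |(xD r + ss r * yD r) - (3925592199/4000000000)| ≤ (9/500000000000) := by
    rw [abs_le]; constructor <;> linarith [(abs_le.1 hxD).1, (abs_le.1 hxD).2, (abs_le.1 t12).1, (abs_le.1 t12).2]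
  have t14 : |(uu r * (xD r + ss r * yD r)) - (174588163361/200000000000)| ≤ (7/250000000000) :=
    mulb hu' t13 (55593/62500) (981399/1000000) (by norm_num) (by norm_num) (by norm_num) (by norm_num) (by norm_num) (by norm_num)
  have hxB : |xB r - (174588163361/100000000000)| ≤ (7/125000000000) := by
    show |2 * (uu r * (xD r + ss r * yD r)) - (174588163361/100000000000)| ≤ (7/125000000000)
    rw [abs_le]; constructor <;> linarith [(abs_le.1 t14).1, (abs_le.1 t14).2]
  have t15 : |(ss r * xD r) - (36830509663/100000000000)| ≤ (19/1000000000000) :=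
    mulb hs' hxD (176241/500000) (1044891/1000000) (by norm_num) (by norm_num) (by norm_num) (by norm_num) (by norm_num) (by norm_num)
  have t16 : |(yD r - ss r * xD r) - (-(13710883963/25000000000))| ≤ (1/50000000000) := by
    rw [abs_le]; constructor <;> linarith [(abs_le.1 hyD).1, (abs_le.1 hyD).2, (abs_le.1 t15).1, (abs_le.1 t15).2]
  have t17 : |(uu r * (yD r - ss r * xD r)) - (-(487826127179/1000000000000))| ≤ (1/40000000000) :=
    mulb hu' t16 (55593/62500) (137109/250000) (by norm_num) (by norm_num) (by norm_num) (by norm_num) (by norm_num) (by norm_num)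
  have hyB : |yB r - (-(487826127179/500000000000))| ≤ (1/20000000000) := by
    show |2 * (uu r * (yD r - ss r * xD r)) - (-(487826127179/500000000000))| ≤ (1/20000000000)
    rw [abs_le]; constructor <;> linarith [(abs_le.1 t17).1, (abs_le.1 t17).2]
  have t18 : |(√3 * yB r) - (-(1689879275067/1000000000000))| ≤ (97/1000000000000) :=
    mulb hq hyB (1732051/1000000) (975653/1000000) (by norm_num) (by norm_num) (by norm_num) (by norm_num) (by norm_num) (by norm_num)
  have hxC : |xC r - (858940227169/500000000000)| ≤ (77/1000000000000) := by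
    show |(1 / 2 * xB r - 1 / 2 * (√3 * yB r)) - (858940227169/500000000000)| ≤ (77/1000000000000)
    rw [abs_le]; constructor <;> linarith [(abs_le.1 hxB).1, (abs_le.1 hxB).2, (abs_le.1 t18).1, (abs_le.1 t18).2]
  have t19 : |(√3 * xB r) - (1511977846707/500000000000)| ≤ (23/200000000000) :=
    mulb hq hxB (1732051/1000000) (872941/500000) (by norm_num) (by norm_num) (by norm_num) (by norm_num) (by norm_num) (by norm_num)
  have hyC : |yC r - (128018964941/125000000000)| ≤ (83/1000000000000) := by
    show |(1 / 2 * (√3 * xB r) + 1 / 2 * yB r) - (128018964941/125000000000)| ≤ (83/1000000000000)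
    rw [abs_le]; constructor <;> linarith [(abs_le.1 t19).1, (abs_le.1 t19).2, (abs_le.1 hyB).1, (abs_le.1 hyB).2]
  have t20 : |(√3 * r) - (52224362937/500000000000)| ≤ (1/1000000000000) :=
    mulb hq hr (1732051/1000000) (3769/62500) (by norm_num) (by norm_num) (by norm_num) (by norm_num) (by norm_num) (by norm_num)
  have hxK : |xK r - (581517995999/500000000000)| ≤ (11/1000000000000) := by
    show |(hh r + √3 * r) - (581517995999/500000000000)| ≤ (11/1000000000000)
    rw [abs_le]; constructor <;> linarith [(abs_le.1 hh').1, (abs_le.1 hh').2, (abs_le.1 t20).1, (abs_le.1 t20).2]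
  have t21 : |(xK r - xC r) - (-(27742223117/50000000000))| ≤ (11/125000000000) := by
    rw [abs_le]; constructor <;> linarith [(abs_le.1 hxK).1, (abs_le.1 hxK).2, (abs_le.1 hxC).1, (abs_le.1 hxC).2]
  have t22 : |(2 * r - yC r) - (-(112943089941/125000000000))| ≤ (83/1000000000000) := by
    rw [abs_le]; constructor <;> linarith [(abs_le.1 hr).1, (abs_le.1 hr).2, (abs_le.1 hyC).1, (abs_le.1 hyC).2]
  have t23 : |((xK r - xC r) * (xK r - xC r)) - (307852377389/1000000000000)| ≤ (99/1000000000000) :=
    mulb t21 t21 (110969/200000) (110969/200000) (by norm_num) (by norm_num) (by norm_num) (by norm_num) (by norm_num) (by norm_num)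
  have t24 : |((2 * r - yC r) * (2 * r - yC r)) - (816393060187/1000000000000)| ≤ (151/1000000000000) :=
    mulb t22 t22 (180709/200000) (180709/200000) (by norm_num) (by norm_num) (by norm_num) (by norm_num) (by norm_num) (by norm_num)
  have hg : |gg r - (240683/125000000000)| ≤ (251/1000000000000) := by
    show |((xK r - xC r) * (xK r - xC r) + (2 * r - yC r) * (2 * r - yC r) - (1 + r) * (1 + r)) - (240683/125000000000)| ≤ (251/1000000000000)
    rw [abs_le]; constructor <;> linarith [(abs_le.1 t23).1, (abs_le.1 t23).2, (abs_le.1 t24).1, (abs_le.1 t24).2, (abs_le.1 t5).1, (abs_le.1 t5).2]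
  exact hg

theorem case_b (r : ℝ) (hr : |r - (603037/10000000)| ≤ 0) :
    |gg r - (-(1920583/1000000000000))| ≤ (63/250000000000) := by
  have hq : |√3 - (1732050807569/1000000000000)| ≤ (1/100000000000) := sqrtb (v := 3) (V := 3) (d := 0) (by norm_num) (by norm_num) (by norm_num) (by norm_num) (by norm_num)
  have t1 : |(1 + 2 * r) - (5603037/5000000)| ≤ 0 := by
    rw [abs_le]; constructor <;> linarith [(abs_le.1 hr).1, (abs_le.1 hr).2]
  have hh' : |hh r - (211717491011/200000000000)| ≤ (1/100000000000) := sqrtb t1 (by norm_num) (by norm_num) (by norm_num) (by norm_num)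
  have t2 : |(2 + r) - (20603037/10000000)| ≤ 0 := by
    rw [abs_le]; constructor <;> linarith [(abs_le.1 hr).1, (abs_le.1 hr).2]
  have t3 : |(r * (2 + r)) - (62121968117/500000000000)| ≤ (1/1000000000000) :=
    mulb hr t2 (3769/62500) (128769/62500) (by norm_num) (by norm_num) (by norm_num) (by norm_num) (by norm_num) (by norm_num)
  have hs' : |ss r - (22030158327/62500000000)| ≤ (3/250000000000) := sqrtb t3 (by norm_num) (by norm_num) (by norm_num) (by norm_num)
  have t4 : |(1 + r) - (10603037/10000000)| ≤ 0 := by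
    rw [abs_le]; constructor <;> linarith [(abs_le.1 hr).1, (abs_le.1 hr).2]
  have t5 : |((1 + r) * (1 + r)) - (562121968117/500000000000)| ≤ (1/1000000000000) :=
    mulb t4 t4 (66269/62500) (66269/62500) (by norm_num) (by norm_num) (by norm_num) (by norm_num) (by norm_num) (by norm_num)
  have hu' : |uu r - (889486674351/1000000000000)| ≤ (11/1000000000000) := invb t5 (by norm_num) (by norm_num) (by norm_num)
  have t6 : |(r * r) - (1818268117/500000000000)| ≤ (1/1000000000000) :=
    mulb hr hr (3769/62500) (3769/62500) (by norm_num) (by norm_num) (by norm_num) (by norm_num) (by norm_num) (by norm_num)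
  have t7 : |((r * r) * uu r) - (3234650521/1000000000000)| ≤ (1/1000000000000) :=
    mulb t6 hu' (3637/1000000) (889487/1000000) (by norm_num) (by norm_num) (by norm_num) (by norm_num) (by norm_num) (by norm_num)
  have hc' : |cc r - (496765349479/500000000000)| ≤ (1/500000000000) := by
    show |(1 - 2 * (r * r * uu r)) - (496765349479/500000000000)| ≤ (1/500000000000)
    rw [abs_le]; constructor <;> linarith [(abs_le.1 t7).1, (abs_le.1 t7).2]
  have t8 : |(2 * cc r - 1) - (246765349479/250000000000)| ≤ (1/250000000000) := by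
    rw [abs_le]; constructor <;> linarith [(abs_le.1 hc').1, (abs_le.1 hc').2]
  have t9 : |(hh r * (2 * cc r - 1)) - (1044890813203/1000000000000)| ≤ (3/200000000000) :=
    mulb hh' t8 (264647/250000) (493531/500000) (by norm_num) (by norm_num) (by norm_num) (by norm_num) (by norm_num) (by norm_num)
  have hxD : |xD r - (1044890813203/1000000000000)| ≤ (3/200000000000) := by
    have e : xD r = (hh r * (2 * cc r - 1)) := by rfl
    rw [e]; exact t9
  have t10 : |(2 * cc r + 1) - (746765349479/250000000000)| ≤ (1/250000000000) := by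
    rw [abs_le]; constructor <;> linarith [(abs_le.1 hc').1, (abs_le.1 hc').2]
  have t11 : |(r * (2 * cc r + 1)) - (90065427211/500000000000)| ≤ (1/1000000000000) :=
    mulb hr t10 (3769/62500) (1493531/500000) (by norm_num) (by norm_num) (by norm_num) (by norm_num) (by norm_num) (by norm_num)
  have hyD : |yD r - (-(90065427211/500000000000))| ≤ (1/1000000000000) := by
    show |-(r * (2 * cc r + 1)) - (-(90065427211/500000000000))| ≤ (1/1000000000000)
    rw [abs_le]; constructor <;> linarith [(abs_le.1 t11).1, (abs_le.1 t11).2]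
  have t12 : |(ss r * yD r) - (-(1587324497/25000000000))| ≤ (3/1000000000000) :=
    mulb hs' hyD (352483/1000000) (180131/1000000) (by norm_num) (by norm_num) (by norm_num) (by norm_num) (by norm_num) (by norm_num)
  have t13 : |(xD r + ss r * yD r) - (981397833323/1000000000000)| ≤ (9/500000000000) := by
    rw [abs_le]; constructor <;> linarith [(abs_le.1 hxD).1, (abs_le.1 hxD).2, (abs_le.1 t12).1, (abs_le.1 t12).2]
  have t14 : |(uu r * (xD r + ss r * yD r)) - (436470147489/500000000000)| ≤ (7/250000000000) :=
    mulb hu' t13 (889487/1000000) (490699/500000) (by norm_num) (by norm_num) (by norm_num) (by norm_num) (by norm_num) (by norm_num)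
  have hxB : |xB r - (436470147489/250000000000)| ≤ (7/125000000000) := by
    show |2 * (uu r * (xD r + ss r * yD r)) - (436470147489/250000000000)| ≤ (7/125000000000)
    rw [abs_le]; constructor <;> linarith [(abs_le.1 t14).1, (abs_le.1 t14).2]
  have t15 : |(ss r * xD r) - (368305760789/1000000000000)| ≤ (19/1000000000000) :=
    mulb hs' hxD (352483/1000000) (1044891/1000000) (by norm_num) (by norm_num) (by norm_num) (by norm_num) (by norm_num) (by norm_num)
  have t16 : |(yD r - ss r * xD r) - (-(548436615211/1000000000000))| ≤ (1/50000000000) := by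
    rw [abs_le]; constructor <;> linarith [(abs_le.1 hyD).1, (abs_le.1 hyD).2, (abs_le.1 t15).1, (abs_le.1 t15).2]
  have t17 : |(uu r * (yD r - ss r * xD r)) - (-(121956765239/250000000000))| ≤ (1/40000000000) :=
    mulb hu' t16 (889487/1000000) (548437/1000000) (by norm_num) (by norm_num) (by norm_num) (by norm_num) (by norm_num) (by norm_num)
  have hyB : |yB r - (-(121956765239/125000000000))| ≤ (1/20000000000) := by
    show |2 * (uu r * (yD r - ss r * xD r)) - (-(121956765239/125000000000))| ≤ (1/20000000000)
    rw [abs_le]; constructor <;> linarith [(abs_le.1 t17).1, (abs_le.1 t17).2]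
  have t18 : |(√3 * yB r) - (-(844941254883/500000000000))| ≤ (97/1000000000000) :=
    mulb hq hyB (1732051/1000000) (195131/200000) (by norm_num) (by norm_num) (by norm_num) (by norm_num) (by norm_num) (by norm_num)
  have hxC : |xC r - (1717881549861/1000000000000)| ≤ (77/1000000000000) := by
    show |(1 / 2 * xB r - 1 / 2 * (√3 * yB r)) - (1717881549861/1000000000000)| ≤ (77/1000000000000)
    rw [abs_le]; constructor <;> linarith [(abs_le.1 hxB).1, (abs_le.1 hxB).2, (abs_le.1 t18).1, (abs_le.1 t18).2]
  have t19 : |(√3 * xB r) - (377994235719/125000000000)| ≤ (23/200000000000) :=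
    mulb hq hxB (1732051/1000000) (1745881/1000000) (by norm_num) (by norm_num) (by norm_num) (by norm_num) (by norm_num) (by norm_num)
  have hyC : |yC r - (3200468381/3125000000)| ≤ (83/1000000000000) := by
    show |(1 / 2 * (√3 * xB r) + 1 / 2 * yB r) - (3200468381/3125000000)| ≤ (83/1000000000000)
    rw [abs_le]; constructor <;> linarith [(abs_le.1 t19).1, (abs_le.1 t19).2, (abs_le.1 hyB).1, (abs_le.1 hyB).2]
  have t20 : |(√3 * r) - (26112268071/250000000000)| ≤ (1/500000000000) :=
    mulb hq hr (1732051/1000000) (3769/62500) (by norm_num) (by norm_num) (by norm_num) (by norm_num) (by norm_num) (by norm_num)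
  have hxK : |xK r - (1163036527339/1000000000000)| ≤ (3/250000000000) := by
    show |(hh r + √3 * r) - (1163036527339/1000000000000)| ≤ (3/250000000000)
    rw [abs_le]; constructor <;> linarith [(abs_le.1 hh').1, (abs_le.1 hh').2, (abs_le.1 t20).1, (abs_le.1 t20).2]
  have t21 : |(xK r - xC r) - (-(277422511261/500000000000))| ≤ (89/1000000000000) := by
    rw [abs_le]; constructor <;> linarith [(abs_le.1 hxK).1, (abs_le.1 hxK).2, (abs_le.1 hxC).1, (abs_le.1 hxC).2]
  have t22 : |(2 * r - yC r) - (-(176473141/195312500))| ≤ (83/1000000000000) := by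
    rw [abs_le]; constructor <;> linarith [(abs_le.1 hr).1, (abs_le.1 hr).2, (abs_le.1 hyC).1, (abs_le.1 hyC).2]
  have t23 : |((xK r - xC r) * (xK r - xC r)) - (307852999017/1000000000000)| ≤ (1/10000000000) :=
    mulb t21 t21 (277423/500000) (277423/500000) (by norm_num) (by norm_num) (by norm_num) (by norm_num) (by norm_num) (by norm_num)
  have t24 : |((2 * r - yC r) * (2 * r - yC r)) - (408194508317/500000000000)| ≤ (151/1000000000000) :=
    mulb t22 t22 (903543/1000000) (903543/1000000) (by norm_num) (by norm_num) (by norm_num) (by norm_num) (by norm_num) (by norm_num)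
  have hg : |gg r - (-(1920583/1000000000000))| ≤ (63/250000000000) := by
    show |((xK r - xC r) * (xK r - xC r) + (2 * r - yC r) * (2 * r - yC r) - (1 + r) * (1 + r)) - (-(1920583/1000000000000))| ≤ (63/250000000000)
    rw [abs_le]; constructor <;> linarith [(abs_le.1 t23).1, (abs_le.1 t23).2, (abs_le.1 t24).1, (abs_le.1 t24).2, (abs_le.1 t5).1, (abs_le.1 t5).2]
  exact hg

theorem case_m (r : ℝ) (hr : |r - (150759/2500000)| ≤ (1/10000000)) :
    |xD r - (1044890762803/1000000000000)| ≤ (71113/500000000000) ∧ |yD r - (-(45032639539/250000000000))| ≤ (301443/1000000000000) ∧ |xB r - (218235138973/125000000000)| ≤ (218009/250000000000) ∧ |yB r - (-(121956648517/125000000000))| ≤ (13761/10000000000) ∧ |xC r - (1717881002101/1000000000000)| ≤ (1627761/1000000000000) ∧ |yC r - (256037700181/250000000000)| ≤ (288653/200000000000) ∧ |xK r - (1163036259669/1000000000000)| ≤ (67157/250000000000) ∧ |hh r - (105858736059/100000000000)| ≤ (95421/1000000000000) := by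
  have hq : |√3 - (1732050807569/1000000000000)| ≤ (1/100000000000) := sqrtb (v := 3) (V := 3) (d := 0) (by norm_num) (by norm_num) (by norm_num) (by norm_num) (by norm_num)
  have t1 : |(1 + 2 * r) - (1400759/1250000)| ≤ (1/5000000) := by
    rw [abs_le]; constructor <;> linarith [(abs_le.1 hr).1, (abs_le.1 hr).2]
  have hh' : |hh r - (105858736059/100000000000)| ≤ (95421/1000000000000) := sqrtb t1 (by norm_num) (by norm_num) (by norm_num) (by norm_num)
  have t2 : |(2 + r) - (5150759/2500000)| ≤ (1/10000000) := by
    rw [abs_le]; constructor <;> linarith [(abs_le.1 hr).1, (abs_le.1 hr).2]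
  have t3 : |(r * (2 + r)) - (124243724173/1000000000000)| ≤ (212061/1000000000000) :=
    mulb hr t2 (3769/62500) (128769/62500) (by norm_num) (by norm_num) (by norm_num) (by norm_num) (by norm_num) (by norm_num)
  have hs' : |ss r - (176241116211/500000000000)| ≤ (30383/100000000000) := sqrtb t3 (by norm_num) (by norm_num) (by norm_num) (by norm_num)
  have t4 : |(1 + r) - (2650759/2500000)| ≤ (1/10000000) := by
    rw [abs_le]; constructor <;> linarith [(abs_le.1 hr).1, (abs_le.1 hr).2]
  have t5 : |((1 + r) * (1 + r)) - (1124243724173/1000000000000)| ≤ (212061/1000000000000) :=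
    mulb t4 t4 (66269/62500) (66269/62500) (by norm_num) (by norm_num) (by norm_num) (by norm_num) (by norm_num) (by norm_num)
  have hu' : |uu r - (889486842131/1000000000000)| ≤ (42367/250000000000) := invb t5 (by norm_num) (by norm_num) (by norm_num)
  have t6 : |(r * r) - (3636524173/1000000000000)| ≤ (12061/1000000000000) :=
    mulb hr hr (3769/62500) (3769/62500) (by norm_num) (by norm_num) (by norm_num) (by norm_num) (by norm_num) (by norm_num)
  have t7 : |((r * r) * uu r) - (3234640403/1000000000000)| ≤ (2269/200000000000) :=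
    mulb t6 hu' (3637/1000000) (889487/1000000) (by norm_num) (by norm_num) (by norm_num) (by norm_num) (by norm_num) (by norm_num)
  have hc' : |cc r - (496765359597/500000000000)| ≤ (2269/100000000000) := by
    show |(1 - 2 * (r * r * uu r)) - (496765359597/500000000000)| ≤ (2269/100000000000)
    rw [abs_le]; constructor <;> linarith [(abs_le.1 t7).1, (abs_le.1 t7).2]
  have t8 : |(2 * cc r - 1) - (246765359597/250000000000)| ≤ (2269/50000000000) := by
    rw [abs_le]; constructor <;> linarith [(abs_le.1 hc').1, (abs_le.1 hc').2]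
  have t9 : |(hh r * (2 * cc r - 1)) - (1044890762803/1000000000000)| ≤ (71113/500000000000) :=
    mulb hh' t8 (264647/250000) (493531/500000) (by norm_num) (by norm_num) (by norm_num) (by norm_num) (by norm_num) (by norm_num)
  have hxD : |xD r - (1044890762803/1000000000000)| ≤ (71113/500000000000) := by
    have e : xD r = (hh r * (2 * cc r - 1)) := by rfl
    rw [e]; exact t9
  have t10 : |(2 * cc r + 1) - (746765359597/250000000000)| ≤ (2269/50000000000) := by
    rw [abs_le]; constructor <;> linarith [(abs_le.1 hc').1, (abs_le.1 hc').2]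
  have t11 : |(r * (2 * cc r + 1)) - (45032639539/250000000000)| ≤ (301443/1000000000000) :=
    mulb hr t10 (3769/62500) (1493531/500000) (by norm_num) (by norm_num) (by norm_num) (by norm_num) (by norm_num) (by norm_num)
  have hyD : |yD r - (-(45032639539/250000000000))| ≤ (301443/1000000000000) := by
    show |-(r * (2 * cc r + 1)) - (-(45032639539/250000000000))| ≤ (301443/1000000000000)
    rw [abs_le]; constructor <;> linarith [(abs_le.1 t11).1, (abs_le.1 t11).2]
  have t12 : |(ss r * yD r) - (-(31746410633/500000000000))| ≤ (20123/125000000000) :=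
    mulb hs' hyD (352483/1000000) (180131/1000000) (by norm_num) (by norm_num) (by norm_num) (by norm_num) (by norm_num) (by norm_num)
  have t13 : |(xD r + ss r * yD r) - (981397941537/1000000000000)| ≤ (30321/100000000000) := by
    rw [abs_le]; constructor <;> linarith [(abs_le.1 hxD).1, (abs_le.1 hxD).2, (abs_le.1 t12).1, (abs_le.1 t12).2]
  have t14 : |(uu r * (xD r + ss r * yD r)) - (218235138973/250000000000)| ≤ (218009/500000000000) :=
    mulb hu' t13 (889487/1000000) (490699/500000) (by norm_num) (by norm_num) (by norm_num) (by norm_num) (by norm_num) (by norm_num)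
  have hxB : |xB r - (218235138973/125000000000)| ≤ (218009/250000000000) := by
    show |2 * (uu r * (xD r + ss r * yD r)) - (218235138973/125000000000)| ≤ (218009/250000000000)
    rw [abs_le]; constructor <;> linarith [(abs_le.1 t14).1, (abs_le.1 t14).2]
  have t15 : |(ss r * xD r) - (36830542871/100000000000)| ≤ (183801/500000000000) :=
    mulb hs' hxD (352483/1000000) (1044891/1000000) (by norm_num) (by norm_num) (by norm_num) (by norm_num) (by norm_num) (by norm_num)
  have t16 : |(yD r - ss r * xD r) - (-(274217993433/500000000000))| ≤ (133809/200000000000) := by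
    rw [abs_le]; constructor <;> linarith [(abs_le.1 hyD).1, (abs_le.1 hyD).2, (abs_le.1 t15).1, (abs_le.1 t15).2]
  have t17 : |(uu r * (yD r - ss r * xD r)) - (-(121956648517/250000000000))| ≤ (13761/20000000000) :=
    mulb hu' t16 (889487/1000000) (137109/250000) (by norm_num) (by norm_num) (by norm_num) (by norm_num) (by norm_num) (by norm_num)
  have hyB : |yB r - (-(121956648517/125000000000))| ≤ (13761/10000000000) := by
    show |2 * (uu r * (yD r - ss r * xD r)) - (-(121956648517/125000000000))| ≤ (13761/10000000000)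
    rw [abs_le]; constructor <;> linarith [(abs_le.1 t17).1, (abs_le.1 t17).2]
  have t18 : |(√3 * yB r) - (-(844940446209/500000000000))| ≤ (1191743/500000000000) :=
    mulb hq hyB (1732051/1000000) (487827/500000) (by norm_num) (by norm_num) (by norm_num) (by norm_num) (by norm_num) (by norm_num)
  have hxC : |xC r - (1717881002101/1000000000000)| ≤ (1627761/1000000000000) := by
    show |(1 / 2 * xB r - 1 / 2 * (√3 * yB r)) - (1717881002101/1000000000000)| ≤ (1627761/1000000000000)
    rw [abs_le]; constructor <;> linarith [(abs_le.1 hxB).1, (abs_le.1 hxB).2, (abs_le.1 t18).1, (abs_le.1 t18).2]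
  have t19 : |(√3 * xB r) - (604790957917/200000000000)| ≤ (1510429/1000000000000) :=
    mulb hq hxB (1732051/1000000) (872941/500000) (by norm_num) (by norm_num) (by norm_num) (by norm_num) (by norm_num) (by norm_num)
  have hyC : |yC r - (256037700181/250000000000)| ≤ (288653/200000000000) := by
    show |(1 / 2 * (√3 * xB r) + 1 / 2 * yB r) - (256037700181/250000000000)| ≤ (288653/200000000000)
    rw [abs_le]; constructor <;> linarith [(abs_le.1 t19).1, (abs_le.1 t19).2, (abs_le.1 hyB).1, (abs_le.1 hyB).2]
  have t20 : |(√3 * r) - (104448899079/1000000000000)| ≤ (173207/1000000000000) :=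
    mulb hq hr (1732051/1000000) (3769/62500) (by norm_num) (by norm_num) (by norm_num) (by norm_num) (by norm_num) (by norm_num)
  have hxK : |xK r - (1163036259669/1000000000000)| ≤ (67157/250000000000) := by
    show |(hh r + √3 * r) - (1163036259669/1000000000000)| ≤ (67157/250000000000)
    rw [abs_le]; constructor <;> linarith [(abs_le.1 hh').1, (abs_le.1 hh').2, (abs_le.1 t20).1, (abs_le.1 t20).2]
  exact ⟨hxD, hyD, hxB, hyB, hxC, hyC, hxK, hh'⟩

end Pool.Agent.Helper67.Rad
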