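import Pool.Agent.Helper67.Rad.Defs

set_option autoImplicit false

/-!
# Integer certificates for the combinatorial conditions
-/

namespace Pool.Agent.Helper67.Rad

theorem ccw_rot {u v w : ℝ × ℝ} (h : CCW u v w) : CCW v w u := by
  unfold CCW at *
  tauto

theorem cross_swap (u v : ℝ × ℝ) : cross v u = -cross u v := by
  simp only [cross]; ring

theorem ccw_asymm {u v w : ℝ × ℝ} (h : CCW u v w) : ¬ CCW u w v := by
  intro h'
  unfold CCW at *
  rw [cross_swap w u, cross_swap v w, cross_swap u v] at h'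
  rcases h with h | h | h <;> rcases h' with h' | h' | h' <;> linarith [h.1, h.2, h'.1, h'.2]

/-! ### The graph -/

/-- the edges of the example; the vertices are `A = 0`, `B = 1`, `C = 2`, `D = 3`, `E = 4`, `F = 5`,
`H = 6`, `K = 7`. -/
def edgeList : List (Fin 8 × Fin 8) :=
  [(0, 1), (1, 2), (0, 2), (0, 3), (1, 3), (0, 4), (3, 4), (0, 5), (4, 5), (4, 6), (5, 6), (5, 7),
    (6, 7), (2, 7)]

def adjB (i j : Fin 8) : Bool := edgeList.contains (i, j) || edgeList.contains (j, i)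

/-- the graph of the example -/
def G : SimpleGraph (Fin 8) where
  Adj i j := adjB i j = true
  symm := ⟨by decide +kernel⟩
  loopless := ⟨by decide +kernel⟩

theorem edge_of_adj {i j : Fin 8} (h : G.Adj i j) : (i, j) ∈ edgeList ∨ (j, i) ∈ edgeList := by
  have : ∀ i j : Fin 8, adjB i j = true → (i, j) ∈ edgeList ∨ (j, i) ∈ edgeList := by
    decide +kernel
  exact this i j h

/-- counterclockwise triples of neighbours: `(v, a, b, c)` -/
def triples : List (Fin 8 × Fin 8 × Fin 8 × Fin 8) :=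
  [(0, 1, 3, 4), (0, 1, 3, 5), (0, 1, 3, 2), (0, 1, 4, 5), (0, 1, 4, 2), (0, 1, 5, 2), (0, 3, 4,
    5), (0, 3, 4, 2), (0, 3, 5, 2), (0, 4, 5, 2), (1, 2, 3, 0), (2, 0, 7, 1), (3, 4, 0, 1), (4, 6,
    5, 0), (4, 6, 5, 3), (4, 6, 0, 3), (4, 5, 0, 3), (5, 6, 7, 0), (5, 6, 7, 4), (5, 6, 0, 4), (5,
    7, 0, 4), (6, 7, 5, 4), (7, 2, 5, 6)]

/-! ### integer certificates -/

/-- The real configuration `p`, scaled by `S`, is within `t` of the integer data `P`. -/
def Approx (S : ℝ) (t : ℤ) (p : Fin 8 → ℝ × ℝ × ℝ) (P : Fin 8 → ℤ × ℤ × ℤ) : Prop :=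
  ∀ i, |S * (p i).1 - (P i).1| ≤ t ∧ |S * (p i).2.1 - (P i).2.1| ≤ t ∧
    |S * (p i).2.2 - (P i).2.2| ≤ t

def crossZ (P : Fin 8 → ℤ × ℤ × ℤ) (v a w b : Fin 8) : ℤ :=
  ((P a).1 - (P v).1) * ((P b).2.1 - (P w).2.1) - ((P a).2.1 - (P v).2.1) * ((P b).1 - (P w).1)

def crossErr (t : ℤ) (P : Fin 8 → ℤ × ℤ × ℤ) (v a w b : Fin 8) : ℤ :=
  2 * t * (|(P a).1 - (P v).1| + |(P b).2.1 - (P w).2.1| + |(P a).2.1 - (P v).2.1| +
    |(P b).1 - (P w).1|) + 8 * t * t

/-- certificate for `0 < cross (a - v) (b - w)` -/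
def posZ (t : ℤ) (P : Fin 8 → ℤ × ℤ × ℤ) (v a w b : Fin 8) : Prop :=
  crossErr t P v a w b < crossZ P v a w b

instance (t : ℤ) (P : Fin 8 → ℤ × ℤ × ℤ) (v a w b : Fin 8) : Decidable (posZ t P v a w b) :=
  inferInstanceAs (Decidable (_ < _))

theorem mul_near {x y X Y e : ℝ} (hx : |x - X| ≤ e) (hy : |y - Y| ≤ e) :
    |x * y - X * Y| ≤ e * (|X| + |Y|) + e * e := by
  have h : x * y - X * Y = (x - X) * (y - Y) + X * (y - Y) + (x - X) * Y := by ring
  have he : 0 ≤ e := (abs_nonneg _).trans hx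
  rw [h]
  calc |(x - X) * (y - Y) + X * (y - Y) + (x - X) * Y|
      ≤ |(x - X) * (y - Y)| + |X * (y - Y)| + |(x - X) * Y| := abs_add_three _ _ _
    _ ≤ e * e + |X| * e + e * |Y| := by
        rw [abs_mul, abs_mul, abs_mul]
        have h1 : |x - X| * |y - Y| ≤ e * e := mul_le_mul hx hy (abs_nonneg _) he
        have h2 : |X| * |y - Y| ≤ |X| * e := mul_le_mul_of_nonneg_left hy (abs_nonneg _)
        have h3 : |x - X| * |Y| ≤ e * |Y| := mul_le_mul_of_nonneg_right hx (abs_nonneg _)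
        linarith
    _ = e * (|X| + |Y|) + e * e := by ring

theorem sub_near {x y X Y e : ℝ} (hx : |x - X| ≤ e) (hy : |y - Y| ≤ e) :
    |(x - y) - (X - Y)| ≤ 2 * e := by
  rw [abs_le] at *
  constructor <;> linarith [hx.1, hx.2, hy.1, hy.2]

theorem pos_of_posZ {S : ℝ} {t : ℤ} {p : Fin 8 → ℝ × ℝ × ℝ} {P : Fin 8 → ℤ × ℤ × ℤ} (hS : 0 < S)
    (h : Approx S t p P) {v a w b : Fin 8} (hc : posZ t P v a w b) :
    0 < cross (centre p a - centre p v) (centre p b - centre p w) := by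
  have e1 := sub_near (h a).1 (h v).1
  have e2 := sub_near (h a).2.1 (h v).2.1
  have e3 := sub_near (h b).1 (h w).1
  have e4 := sub_near (h b).2.1 (h w).2.1
  have m1 := mul_near e1 e4
  have m2 := mul_near e2 e3
  rw [abs_le] at m1 m2
  have hc' : ((crossErr t P v a w b : ℤ) : ℝ) < ((crossZ P v a w b : ℤ) : ℝ) := by
    exact_mod_cast hc
  simp only [crossErr, crossZ] at hc'
  push_cast at hc'
  have key : 0 < S * S * cross (centre p a - centre p v) (centre p b - centre p w) := by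
    simp only [cross, centre, Prod.fst_sub, Prod.snd_sub]
    nlinarith [m1.1, m1.2, m2.1, m2.2, hc']
  have hSS : 0 < S * S := mul_pos hS hS
  exact (mul_pos_iff_of_pos_left hSS).1 key

def ccwZ (t : ℤ) (P : Fin 8 → ℤ × ℤ × ℤ) (v a b c : Fin 8) : Prop :=
  (posZ t P v a v b ∧ posZ t P v b v c) ∨ (posZ t P v b v c ∧ posZ t P v c v a) ∨
    (posZ t P v c v a ∧ posZ t P v a v b)

instance (t : ℤ) (P : Fin 8 → ℤ × ℤ × ℤ) (v a b c : Fin 8) : Decidable (ccwZ t P v a b c) := by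
  unfold ccwZ; infer_instance

theorem ccw_of_ccwZ {S : ℝ} {t : ℤ} {p : Fin 8 → ℝ × ℝ × ℝ} {P : Fin 8 → ℤ × ℤ × ℤ} (hS : 0 < S)
    (h : Approx S t p P) {v a b c : Fin 8} (hc : ccwZ t P v a b c) :
    CCW (centre p a - centre p v) (centre p b - centre p v) (centre p c - centre p v) := by
  rcases hc with ⟨h1, h2⟩ | ⟨h1, h2⟩ | ⟨h1, h2⟩
  · exact Or.inl ⟨pos_of_posZ hS h h1, pos_of_posZ hS h h2⟩
  · exact Or.inr (Or.inl ⟨pos_of_posZ hS h h1, pos_of_posZ hS h h2⟩)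
  · exact Or.inr (Or.inr ⟨pos_of_posZ hS h h1, pos_of_posZ hS h h2⟩)

def farZ (t : ℤ) (P : Fin 8 → ℤ × ℤ × ℤ) (i j : Fin 8) : Prop :=
  4 * t * (|(P i).1 - (P j).1| + |(P i).2.1 - (P j).2.1| + |(P i).2.2 + (P j).2.2|) + 4 * t * t
    ≤ ((P i).1 - (P j).1) ^ 2 + ((P i).2.1 - (P j).2.1) ^ 2 - ((P i).2.2 + (P j).2.2) ^ 2

instance (t : ℤ) (P : Fin 8 → ℤ × ℤ × ℤ) (i j : Fin 8) : Decidable (farZ t P i j) :=
  inferInstanceAs (Decidable (_ ≤ _))

theorem far_of_farZ {S : ℝ} {t : ℤ} {p : Fin 8 → ℝ × ℝ × ℝ} {P : Fin 8 → ℤ × ℤ × ℤ} (hS : 0 < S)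
    (h : Approx S t p P) {i j : Fin 8} (hc : farZ t P i j) :
    (radius p i + radius p j) ^ 2 ≤
      ((centre p i).1 - (centre p j).1) ^ 2 + ((centre p i).2 - (centre p j).2) ^ 2 := by
  have e1 := sub_near (h i).1 (h j).1
  have e2 := sub_near (h i).2.1 (h j).2.1
  have e3 : |(S * (p i).2.2 + S * (p j).2.2) - (((P i).2.2 : ℝ) + (P j).2.2)| ≤ 2 * t := by
    have a1 := (h i).2.2
    have a2 := (h j).2.2
    rw [abs_le] at *
    constructor <;> linarith [a1.1, a1.2, a2.1, a2.2]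
  have hc' : (((4 * t * (|(P i).1 - (P j).1| + |(P i).2.1 - (P j).2.1| + |(P i).2.2 + (P j).2.2|) +
      4 * t * t) : ℤ) : ℝ) ≤ ((((P i).1 - (P j).1) ^ 2 + ((P i).2.1 - (P j).2.1) ^ 2 -
        ((P i).2.2 + (P j).2.2) ^ 2 : ℤ) : ℝ) := by
    exact_mod_cast hc
  push_cast at hc'
  -- lower bound for squares
  have lo : ∀ x X e : ℝ, |x - X| ≤ e → X ^ 2 - 2 * e * |X| ≤ x ^ 2 := by
    intro x X e hx
    have h1 : -(e * |X|) ≤ (x - X) * X := by
      have := neg_abs_le ((x - X) * X)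
      rw [abs_mul] at this
      nlinarith [mul_le_mul_of_nonneg_right hx (abs_nonneg X)]
    nlinarith [sq_nonneg (x - X)]
  have hi : ∀ x X e : ℝ, |x - X| ≤ e → x ^ 2 ≤ X ^ 2 + 2 * e * |X| + e ^ 2 := by
    intro x X e hx
    have h1 : (x - X) * X ≤ e * |X| := by
      have := le_abs_self ((x - X) * X)
      rw [abs_mul] at this
      nlinarith [mul_le_mul_of_nonneg_right hx (abs_nonneg X)]
    have h2 : (x - X) ^ 2 ≤ e ^ 2 := by
      have he : 0 ≤ e := (abs_nonneg _).trans hx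
      rw [← sq_abs (x - X)]
      exact pow_le_pow_left₀ (abs_nonneg _) hx 2
    nlinarith
  have l1 := lo _ _ _ e1
  have l2 := lo _ _ _ e2
  have l3 := hi _ _ _ e3
  have key : S ^ 2 * (radius p i + radius p j) ^ 2 ≤
      S ^ 2 * (((centre p i).1 - (centre p j).1) ^ 2 + ((centre p i).2 - (centre p j).2) ^ 2) := by
    simp only [centre, radius]
    nlinarith [l1, l2, l3, hc']
  exact le_of_mul_le_mul_left key (by positivity)

/-- all conditions -/
structure GoodZ (t : ℤ) (P : Fin 8 → ℤ × ℤ × ℤ) : Prop where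
  ccw : triples.all (fun x => decide (ccwZ t P x.1 x.2.1 x.2.2.1 x.2.2.2)) = true
  out : posZ t P 0 1 0 2
  inner : ∀ v : Fin 8, v ≠ 0 → v ≠ 1 → v ≠ 2 →
    posZ t P 0 1 0 v ∧ posZ t P 1 2 1 v ∧ posZ t P 2 0 2 v

def apartZ (t : ℤ) (P : Fin 8 → ℤ × ℤ × ℤ) : Prop :=
  ∀ i j : Fin 8, i ≠ j → adjB i j = true ∨ farZ t P i j

instance (t : ℤ) (P : Fin 8 → ℤ × ℤ × ℤ) : Decidable (apartZ t P) := by
  unfold apartZ; infer_instance

theorem ccwZ_of_mem {t : ℤ} {P : Fin 8 → ℤ × ℤ × ℤ} (hg : GoodZ t P) {v a b c : Fin 8}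
    (h : (v, a, b, c) ∈ triples) : ccwZ t P v a b c := by
  have := List.all_eq_true.1 hg.ccw _ h
  simpa using this

def inT (v a b c : Fin 8) : Bool := triples.contains (v, a, b, c)

theorem mem_of_inT {v a b c : Fin 8} (h : inT v a b c = true) : (v, a, b, c) ∈ triples := by
  simpa [inT] using h

def combB (v a b c : Fin 8) : Bool :=
  !(adjB v a && adjB v b && adjB v c && a != b && b != c && c != a) ||
    (inT v a b c || inT v b c a || inT v c a b) || (inT v a c b || inT v c b a || inT v b a c)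

theorem combB_true : ∀ v a b c : Fin 8, combB v a b c = true := by decide +kernel

theorem comb (v a b c : Fin 8) (ha : adjB v a = true) (hb : adjB v b = true)
    (hc : adjB v c = true) (hab : a ≠ b) (hbc : b ≠ c) (hca : c ≠ a) :
      (((v, a, b, c) ∈ triples ∨ (v, b, c, a) ∈ triples ∨ (v, c, a, b) ∈ triples) ∨
        ((v, a, c, b) ∈ triples ∨ (v, c, b, a) ∈ triples ∨ (v, b, a, c) ∈ triples)) := by
  have h := combB_true v a b c
  have e1 : (a != b) = true := by simpa using hab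
  have e2 : (b != c) = true := by simpa using hbc
  have e3 : (c != a) = true := by simpa using hca
  simp only [combB, ha, hb, hc, e1, e2, e3, Bool.and_true, Bool.not_true, Bool.false_or,
    Bool.or_eq_true] at h
  rcases h with ((h | h) | h) | (h | h) | h
  · exact Or.inl (Or.inl (mem_of_inT h))
  · exact Or.inl (Or.inr (Or.inl (mem_of_inT h)))
  · exact Or.inl (Or.inr (Or.inr (mem_of_inT h)))
  · exact Or.inr (Or.inl (mem_of_inT h))
  · exact Or.inr (Or.inr (Or.inl (mem_of_inT h)))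
  · exact Or.inr (Or.inr (Or.inr (mem_of_inT h)))

theorem outer_of_goodZ {S : ℝ} {t : ℤ} {p : Fin 8 → ℝ × ℝ × ℝ} {P : Fin 8 → ℤ × ℤ × ℤ} (hS : 0 < S)
    (h : Approx S t p P) (hg : GoodZ t P) : OuterTriangle (centre p) 0 1 2 := by
  refine ⟨pos_of_posZ hS h hg.out, fun v h0 h1 h2 => ?_⟩
  obtain ⟨a, b, c⟩ := hg.inner v h0 h1 h2
  exact ⟨pos_of_posZ hS h a, pos_of_posZ hS h b, pos_of_posZ hS h c⟩

theorem ccw_of_mem {S : ℝ} {t : ℤ} {p : Fin 8 → ℝ × ℝ × ℝ} {P : Fin 8 → ℤ × ℤ × ℤ} (hS : 0 < S)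
    (h : Approx S t p P) (hg : GoodZ t P) {v a b c : Fin 8}
    (hm : (v, a, b, c) ∈ triples ∨ (v, b, c, a) ∈ triples ∨ (v, c, a, b) ∈ triples) :
    CCW (centre p a - centre p v) (centre p b - centre p v) (centre p c - centre p v) := by
  rcases hm with hm | hm | hm
  · exact ccw_of_ccwZ hS h (ccwZ_of_mem hg hm)
  · exact ccw_rot (ccw_rot (ccw_of_ccwZ hS h (ccwZ_of_mem hg hm)))
  · exact ccw_rot (ccw_of_ccwZ hS h (ccwZ_of_mem hg hm))

theorem ccw_iff_of_goodZ {S S' : ℝ} {t t' : ℤ} {p p' : Fin 8 → ℝ × ℝ × ℝ}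
    {P P' : Fin 8 → ℤ × ℤ × ℤ} (hS : 0 < S) (h : Approx S t p P) (hg : GoodZ t P)
    (hS' : 0 < S') (h' : Approx S' t' p' P') (hg' : GoodZ t' P') (v a b c : Fin 8)
    (ha : G.Adj v a) (hb : G.Adj v b) (hc : G.Adj v c) (hab : a ≠ b) (hbc : b ≠ c) (hca : c ≠ a) :
    CCW (centre p a - centre p v) (centre p b - centre p v) (centre p c - centre p v) ↔
      CCW (centre p' a - centre p' v) (centre p' b - centre p' v)
        (centre p' c - centre p' v) := by
  rcases comb v a b c ha hb hc hab hbc hca with hm | hm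
  · exact ⟨fun _ => ccw_of_mem hS' h' hg' hm, fun _ => ccw_of_mem hS h hg hm⟩
  · have n1 := ccw_asymm (ccw_of_mem hS h hg hm)
    have n2 := ccw_asymm (ccw_of_mem hS' h' hg' hm)
    exact ⟨fun x => absurd x n1, fun x => absurd x n2⟩

end Pool.Agent.Helper67.Rad
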