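import Mathlib

set_option autoImplicit false

/-!
# Circle packings of plane graphs: definitions

`p i = (x, y, r)` is the disk with centre `(x, y)` and radius `r`.
-/

namespace Pool.Agent.Helper67.Rad

/-- The cross product of two vectors of the plane. -/
def cross (u v : ℝ × ℝ) : ℝ := u.1 * v.2 - u.2 * v.1

/-- The three plane vectors `u`, `v`, `w` point in pairwise different directions which occur in the
counterclockwise cyclic order `u`, `v`, `w`: of the three consecutive counterclockwise turns (from
`u` to `v`, from `v` to `w`, from `w` to `u`; they add up to a full turn) at least two are strictly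
between `0` and `π`. -/
def CCW (u v w : ℝ × ℝ) : Prop :=
  (0 < cross u v ∧ 0 < cross v w) ∨ (0 < cross v w ∧ 0 < cross w u) ∨
    (0 < cross w u ∧ 0 < cross u v)

variable {V : Type*}

/-- A plane embedding of the graph `G`, given as a straight line drawing: different vertices are
different points, an edge contains no vertex besides its ends, and the interiors of two different
edges are disjoint. -/
structure PlaneEmbedding (G : SimpleGraph V) where
  pos : V → ℝ × ℝ
  pos_injective : Function.Injective pos
  vertex_not_on_edge : ∀ a b c, G.Adj a b → c ≠ a → c ≠ b → pos c ∉ segment ℝ (pos a) (pos b)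
  edges_disjoint : ∀ a b c d, G.Adj a b → G.Adj c d → s(a, b) ≠ s(c, d) →
    Disjoint (openSegment ℝ (pos a) (pos b)) (openSegment ℝ (pos c) (pos d))

/-- The centre of disk `i`. -/
def centre (p : V → ℝ × ℝ × ℝ) (i : V) : ℝ × ℝ := ((p i).1, (p i).2.1)

/-- The radius of disk `i`. -/
def radius (p : V → ℝ × ℝ × ℝ) (i : V) : ℝ := (p i).2.2

/-- The set of packings of the graph `G` with the plane embedding `D`: all radii are positive, the
disks of adjacent vertices are externally tangent, and around every vertex the (centres of the)
neighbours occur in the same counterclockwise cyclic order as in `D`. -/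
def packings (G : SimpleGraph V) (D : PlaneEmbedding G) : Set (V → ℝ × ℝ × ℝ) :=
  {p | (∀ i, 0 < radius p i) ∧
    (∀ i j, G.Adj i j → (radius p i + radius p j) ^ 2 =
      ((centre p i).1 - (centre p j).1) ^ 2 + ((centre p i).2 - (centre p j).2) ^ 2) ∧
    (∀ v a b c, G.Adj v a → G.Adj v b → G.Adj v c → a ≠ b → b ≠ c → c ≠ a →
      (CCW (D.pos a - D.pos v) (D.pos b - D.pos v) (D.pos c - D.pos v) ↔
        CCW (centre p a - centre p v) (centre p b - centre p v) (centre p c - centre p v)))}

/-- The ratio of the smallest to the largest radius. -/
noncomputable def radiusRatio (p : V → ℝ × ℝ × ℝ) : ℝ :=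
  (⨅ i, radius p i) / (⨆ i, radius p i)

/-- No two disks overlap (adjacent or not). -/
def NonOverlapping (p : V → ℝ × ℝ × ℝ) : Prop :=
  ∀ i j, i ≠ j → (radius p i + radius p j) ^ 2 ≤
    ((centre p i).1 - (centre p j).1) ^ 2 + ((centre p i).2 - (centre p j).2) ^ 2

/-- The triangle with corners `a`, `b`, `c` is traversed counterclockwise and contains all other
points in its interior. -/
def OuterTriangle (P : V → ℝ × ℝ) (a b c : V) : Prop :=
  0 < cross (P b - P a) (P c - P a) ∧
    ∀ v, v ≠ a → v ≠ b → v ≠ c → 0 < cross (P b - P a) (P v - P a) ∧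
      0 < cross (P c - P b) (P v - P b) ∧ 0 < cross (P a - P c) (P v - P c)

end Pool.Agent.Helper67.Rad
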