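import Pool.Agent.Helper67.Rad.Check

set_option autoImplicit false

/-!
# The plane embedding of the example
-/

namespace Pool.Agent.Helper67.Rad

/-- integer positions (the last coordinate is a dummy radius) -/
def drawZ : Fin 8 → ℤ × ℤ × ℤ :=
  ![(0, 0, 0), (200, 0, 0), (100, 173, 0), (100, 35, 0), (95, 46, 0), (89, 57, 0), (102, 57, 0),
    (96, 67, 0)]

/-- the same as a real configuration -/
noncomputable def drawR (i : Fin 8) : ℝ × ℝ × ℝ :=
  (((drawZ i).1 : ℝ), ((drawZ i).2.1 : ℝ), ((drawZ i).2.2 : ℝ))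

theorem draw_approx : Approx 1 0 drawR drawZ := by
  intro i
  simp [drawR]

theorem draw_good : GoodZ 0 drawZ where
  ccw := by decide +kernel
  out := by decide +kernel
  inner := by decide +kernel

def sideZ (a b c : Fin 8) : ℤ :=
  ((drawZ b).1 - (drawZ a).1) * ((drawZ c).2.1 - (drawZ a).2.1) -
    ((drawZ b).2.1 - (drawZ a).2.1) * ((drawZ c).1 - (drawZ a).1)

theorem cross_sideZ (a b c : Fin 8) :
    cross (centre drawR b - centre drawR a) (centre drawR c - centre drawR a) = (sideZ a b c : ℝ) := by
  simp only [cross, centre, drawR, Prod.fst_sub, Prod.snd_sub, sideZ]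
  push_cast
  ring

def sepB (a b c d : Fin 8) : Bool :=
  (decide (0 ≤ sideZ a b c) && decide (0 ≤ sideZ a b d) && decide (0 < sideZ a b c + sideZ a b d)) ||
  (decide (0 ≤ -sideZ a b c) && decide (0 ≤ -sideZ a b d) &&
    decide (0 < -sideZ a b c + -sideZ a b d))

theorem cross_openSegment {a b c d : Fin 8} {P : ℝ × ℝ}
    (h : P ∈ openSegment ℝ (centre drawR c) (centre drawR d)) :
    ∃ s t : ℝ, 0 < s ∧ 0 < t ∧ s + t = 1 ∧
      cross (centre drawR b - centre drawR a) (P - centre drawR a) =
        s * (sideZ a b c : ℝ) + t * (sideZ a b d : ℝ) := by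
  obtain ⟨s, t, hs, ht, hst, rfl⟩ := h
  refine ⟨s, t, hs, ht, hst, ?_⟩
  rw [← cross_sideZ, ← cross_sideZ]
  simp only [cross, Prod.fst_sub, Prod.snd_sub, Prod.fst_add, Prod.snd_add, Prod.smul_fst,
    Prod.smul_snd, smul_eq_mul]
  have : s = 1 - t := by linarith
  subst this
  ring

theorem sideZ_self_left (a b : Fin 8) : sideZ a b a = 0 := by simp [sideZ]

theorem sideZ_self_right (a b : Fin 8) : sideZ a b b = 0 := by simp [sideZ]; ring

theorem disjoint_of_sepB {a b c d : Fin 8} (h : sepB a b c d = true) :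
    Disjoint (openSegment ℝ (centre drawR a) (centre drawR b))
      (openSegment ℝ (centre drawR c) (centre drawR d)) := by
  rw [Set.disjoint_left]
  intro P h1 h2
  obtain ⟨s, t, hs, ht, hst, e1⟩ := cross_openSegment (a := a) (b := b) h1
  obtain ⟨s', t', hs', ht', hst', e2⟩ := cross_openSegment (a := a) (b := b) h2
  rw [e1, sideZ_self_left, sideZ_self_right] at e2
  simp only [Int.cast_zero, mul_zero, add_zero] at e2
  simp only [sepB, Bool.or_eq_true, Bool.and_eq_true, decide_eq_true_eq] at h
  rcases h with ⟨⟨p1, p2⟩, p3⟩ | ⟨⟨p1, p2⟩, p3⟩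
  · have q1 : (0 : ℝ) ≤ (sideZ a b c : ℝ) := by exact_mod_cast p1
    have q2 : (0 : ℝ) ≤ (sideZ a b d : ℝ) := by exact_mod_cast p2
    have q3 : (0 : ℝ) < (sideZ a b c : ℝ) + (sideZ a b d : ℝ) := by exact_mod_cast p3
    have r1 := mul_nonneg hs'.le q1
    have r2 := mul_nonneg ht'.le q2
    have r3 : s' * (sideZ a b c : ℝ) = 0 := by linarith
    have r4 : t' * (sideZ a b d : ℝ) = 0 := by linarith
    rcases mul_eq_zero.1 r3 with h | h
    · linarith
    · rcases mul_eq_zero.1 r4 with h' | h' <;> linarith
  · have q1 : (0 : ℝ) ≤ -(sideZ a b c : ℝ) := by exact_mod_cast p1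
    have q2 : (0 : ℝ) ≤ -(sideZ a b d : ℝ) := by exact_mod_cast p2
    have q3 : (0 : ℝ) < -(sideZ a b c : ℝ) + -(sideZ a b d : ℝ) := by exact_mod_cast p3
    have r1 := mul_nonneg hs'.le q1
    have r2 := mul_nonneg ht'.le q2
    have r3 : s' * (sideZ a b c : ℝ) = 0 := by linarith
    have r4 : t' * (sideZ a b d : ℝ) = 0 := by linarith
    rcases mul_eq_zero.1 r3 with h | h
    · linarith
    · rcases mul_eq_zero.1 r4 with h' | h' <;> linarith

def vertB (a b c : Fin 8) : Bool := !(adjB a b && c != a && c != b) || (sideZ a b c != 0)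

theorem vertB_true : ∀ a b c : Fin 8, vertB a b c = true := by decide +kernel

def edgeB (a b c d : Fin 8) : Bool :=
  !(adjB a b && adjB c d && !((a == c && b == d) || (a == d && b == c))) ||
    (sepB a b c d || sepB c d a b)

theorem edgeB_true : ∀ a b c d : Fin 8, edgeB a b c d = true := by decide +kernel

/-- the plane embedding of the example -/
noncomputable def D : PlaneEmbedding G where
  pos := centre drawR
  pos_injective := by
    have h : ∀ i j : Fin 8, i ≠ j → (drawZ i).1 ≠ (drawZ j).1 ∨ (drawZ i).2.1 ≠ (drawZ j).2.1 := by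
      decide +kernel
    intro i j hij
    by_contra hne
    simp only [centre, drawR, Prod.mk.injEq, Int.cast_inj] at hij
    rcases h i j hne with h | h
    · exact h hij.1
    · exact h hij.2
  vertex_not_on_edge := by
    intro a b c hab hca hcb hmem
    have h := vertB_true a b c
    have hab' : adjB a b = true := hab
    have e1 : (c != a) = true := by simpa using hca
    have e2 : (c != b) = true := by simpa using hcb
    simp only [vertB, hab', e1, e2, Bool.and_true, Bool.not_true, Bool.false_or] at h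
    have h0 : sideZ a b c ≠ 0 := by simpa using h
    obtain ⟨s, t, hs, ht, hst, e⟩ := hmem
    have h1 : (sideZ a b c : ℝ) = 0 := by
      rw [← cross_sideZ, ← e]
      simp only [cross, Prod.fst_sub, Prod.snd_sub, Prod.fst_add, Prod.snd_add, Prod.smul_fst,
        Prod.smul_snd, smul_eq_mul]
      have : s = 1 - t := by linarith
      subst this
      ring
    exact h0 (by exact_mod_cast h1)
  edges_disjoint := by
    intro a b c d hab hcd hne
    have h := edgeB_true a b c d
    have hab' : adjB a b = true := hab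
    have hcd' : adjB c d = true := hcd
    have e : ((a == c && b == d) || (a == d && b == c)) = false := by
      rw [Bool.eq_false_iff]
      intro hh
      apply hne
      simp only [Bool.or_eq_true, Bool.and_eq_true, beq_iff_eq] at hh
      rcases hh with ⟨rfl, rfl⟩ | ⟨rfl, rfl⟩
      · rfl
      · exact Sym2.eq_swap
    simp only [edgeB, hab', hcd', e, Bool.and_true, Bool.not_false, Bool.not_true, Bool.false_or,
      Bool.or_eq_true] at h
    rcases h with h | h
    · exact disjoint_of_sepB h
    · exact (disjoint_of_sepB h).symm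

theorem D_outer : OuterTriangle D.pos 0 1 2 := outer_of_goodZ one_pos draw_approx draw_good

/-- a configuration with a good integer certificate has the same cyclic orders as the drawing -/
theorem ccw_iff_D {S : ℝ} {t : ℤ} {p : Fin 8 → ℝ × ℝ × ℝ} {P : Fin 8 → ℤ × ℤ × ℤ} (hS : 0 < S)
    (h : Approx S t p P) (hg : GoodZ t P) (v a b c : Fin 8)
    (ha : G.Adj v a) (hb : G.Adj v b) (hc : G.Adj v c) (hab : a ≠ b) (hbc : b ≠ c) (hca : c ≠ a) :
    CCW (D.pos a - D.pos v) (D.pos b - D.pos v) (D.pos c - D.pos v) ↔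
      CCW (centre p a - centre p v) (centre p b - centre p v) (centre p c - centre p v) :=
  ccw_iff_of_goodZ one_pos draw_approx draw_good hS h hg v a b c ha hb hc hab hbc hca

theorem mem_packings {S : ℝ} {t : ℤ} {p : Fin 8 → ℝ × ℝ × ℝ} {P : Fin 8 → ℤ × ℤ × ℤ} (hS : 0 < S)
    (h : Approx S t p P) (hg : GoodZ t P) (hpos : ∀ i, 0 < radius p i)
    (he : ∀ e ∈ edgeList, (radius p e.1 + radius p e.2) ^ 2 =
      ((centre p e.1).1 - (centre p e.2).1) ^ 2 + ((centre p e.1).2 - (centre p e.2).2) ^ 2) :
    p ∈ packings G D := by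
  refine ⟨hpos, fun i j hij => ?_, fun v a b c ha hb hc hab hbc hca =>
    ccw_iff_D hS h hg v a b c ha hb hc hab hbc hca⟩
  rcases edge_of_adj hij with hm | hm
  · exact he _ hm
  · have := he _ hm
    simp only at this
    linear_combination this

end Pool.Agent.Helper67.Rad
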