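import Mathlib
set_option autoImplicit false
set_option maxHeartbeats 4000000
set_option linter.unusedVariables false
namespace Pool.Agent.Helper67.Rad

theorem step_key (M uB wB uC wC uD wD uF wF uH wH uK wK sA sB sC sD sE sF sH sK : ℝ)
  (buB : |uB| ≤ M) (bwB : |wB| ≤ M) (buC : |uC| ≤ M) (bwC : |wC| ≤ M) (buD : |uD| ≤ M) (bwD : |wD| ≤ M) (buF : |uF| ≤ M) (bwF : |wF| ≤ M) (buH : |uH| ≤ M) (bwH : |wH| ≤ M) (buK : |uK| ≤ M) (bwK : |wK| ≤ M) (bsA : |sA| ≤ M) (bsB : |sB| ≤ M) (bsC : |sC| ≤ M) (bsD : |sD| ≤ M) (bsE : |sE| ≤ M) (bsF : |sF| ≤ M) (bsH : |sH| ≤ M) (bsK : |sK| ≤ M)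
  (eAB : |(-(1745881/1000000))*(0 - uB) + (975653/1000000)*(0 - wB) - 2*(sA + sB)| ≤ (1/2500)*M)
  (eBC : |(7/250)*(uB - uC) + (-(499951/250000))*(wB - wC) - 2*(sB + sC)| ≤ (1/2500)*M)
  (eCA : |(1717881/1000000)*(uC - 0) + (1024151/1000000)*(wC - 0) - 2*(sC + sA)| ≤ (1/2500)*M)
  (eAD : |(-(1044891/1000000))*(0 - uD) + (180131/1000000)*(0 - wD) - (66269/62500)*(sA + sD)| ≤ (1/2500)*M)
  (eBD : |(70099/100000)*(uB - uD) + (-(397761/500000))*(wB - wD) - (66269/62500)*(sB + sD)| ≤ (1/2500)*M)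
  (eDE : |(-(214/15625))*(uD - 0) + (-(119827/1000000))*(wD - 0) - (3769/31250)*(sD + sE)| ≤ (1/2500)*M)
  (eAF : |(-(1058587/1000000))*(0 - uF) + (-(3769/62500))*(0 - wF) - (66269/62500)*(sA + sF)| ≤ (1/2500)*M)
  (eEF : |0*(0 - uF) + (-(3769/31250))*(0 - wF) - (3769/31250)*(sE + sF)| ≤ (1/2500)*M)
  (eEH : |(-(104449/1000000))*(0 - uH) + (-(3769/62500))*(0 - wH) - (3769/31250)*(sE + sH)| ≤ (1/2500)*M)
  (eFH : |(-(104449/1000000))*(uF - uH) + (3769/62500)*(wF - wH) - (3769/31250)*(sF + sH)| ≤ (1/2500)*M)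
  (eFK : |(-(104449/1000000))*(uF - uK) + (-(60303/1000000))*(wF - wK) - (3769/31250)*(sF + sK)| ≤ (1/2500)*M)
  (eHK : |0*(uH - uK) + (-(120607/1000000))*(wH - wK) - (3769/31250)*(sH + sK)| ≤ (1/2500)*M)
  (eKC : |(-(110969/200000))*(uK - uC) + (-(112943/125000))*(wK - wC) - (66269/62500)*(sK + sC)| ≤ (1/2500)*M) :
  |(-(96407241/156250000))*sA + (-(124833567/625000000))*sB + (-(10181/62500))*sC + (438664417/125000000)*sD + (331532547/156250000)*sE + (223878307/312500000)*sF + (45563441/78125000)*sH + (713811813/312500000)*sK| ≤ (19/1250)*M := by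
  simp only [abs_le] at *
  have h : (-(96407241/156250000))*sA + (-(124833567/625000000))*sB + (-(10181/62500))*sC + (438664417/125000000)*sD + (331532547/156250000)*sE + (223878307/312500000)*sF + (45563441/78125000)*sH + (713811813/312500000)*sK = ((2779/5000)*((-(1745881/1000000))*(0 - uB) + (975653/1000000)*(0 - wB) - 2*(sA + sB)) + (71/250)*((7/250)*(uB - uC) + (-(499951/250000))*(wB - wC) - 2*(sB + sC)) + (819/2500)*((1717881/1000000)*(uC - 0) + (1024151/1000000)*(wC - 0) - 2*(sC + sA)) + (-(5187/5000))*((-(1044891/1000000))*(0 - uD) + (180131/1000000)*(0 - wD) - (66269/62500)*(sA + sD)) + (-(13957/10000))*((70099/100000)*(uB - uD) + (-(397761/500000))*(wB - wD) - (66269/62500)*(sB + sD)) + (-(77067/10000))*((-(214/15625))*(uD - 0) + (-(119827/1000000))*(wD - 0) - (3769/31250)*(sD + sE)) + (-(47/1000))*((-(1058587/1000000))*(0 - uF)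 + (-(3769/62500))*(0 - wF) - (66269/62500)*(sA + sF)) + (-(50503/10000))*(0*(0 - uF) + (-(3769/31250))*(0 - wF) - (3769/31250)*(sE + sF)) + (-(12089/2500))*((-(104449/1000000))*(0 - uH) + (-(3769/62500))*(0 - wH) - (3769/31250)*(sE + sH)) + (12089/2500)*((-(104449/1000000))*(uF - uH) + (3769/62500)*(wF - wH) - (3769/31250)*(sF + sH)) + (-(53121/10000))*((-(104449/1000000))*(uF - uK) + (-(60303/1000000))*(wF - wK) - (3769/31250)*(sF + sK)) + (-(12089/2500))*(0*(uH - uK) + (-(120607/1000000))*(wH - wK) - (3769/31250)*(sH + sK)) + (-1)*((-(110969/200000))*(uK - uC) + (-(112943/125000))*(wK - wC) - (66269/62500)*(sK + sC))) - ((-(36927/625000000))*uB + (48891/500000000)*wB + (-(47961/2500000000))*uC + (-(219491/2500000000))*wC + (-(118043/2500000000))*uD + (285849/10000000000)*wD + (32719/2000000000)*uF + (7183/10000000000)*wF + (-(12089/2500000000))*wH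 + (14671/10000000000)*uK + (2449/2000000000)*wK) := by ring
  rw [h]
  constructor <;> linarith

theorem step_s (M sA sB sC sD sE sF sH sK : ℝ) (hM : 0 ≤ M)
  (key : |(-(96407241/156250000))*sA + (-(124833567/625000000))*sB + (-(10181/62500))*sC + (438664417/125000000)*sD + (331532547/156250000)*sE + (223878307/312500000)*sF + (45563441/78125000)*sH + (713811813/312500000)*sK| ≤ (19/1250)*M) (hAE : sA + sE = 0)
  (rDA : (3769/62500)*sA - (3/200000)*M ≤ sD)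
  (rDB : (3769/62500)*sB - (3/200000)*M ≤ sD)
  (rDC : (3769/62500)*sC - (3/200000)*M ≤ sD)
  (rEA : (3769/62500)*sA - (3/200000)*M ≤ sE)
  (rEB : (3769/62500)*sB - (3/200000)*M ≤ sE)
  (rEC : (3769/62500)*sC - (3/200000)*M ≤ sE)
  (rFA : (3769/62500)*sA - (3/200000)*M ≤ sF)
  (rFB : (3769/62500)*sB - (3/200000)*M ≤ sF)
  (rFC : (3769/62500)*sC - (3/200000)*M ≤ sF)
  (rHA : (3769/62500)*sA - (3/200000)*M ≤ sH)
  (rHB : (3769/62500)*sB - (3/200000)*M ≤ sH)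
  (rHC : (3769/62500)*sC - (3/200000)*M ≤ sH)
  (rKA : (3769/62500)*sA - (3/200000)*M ≤ sK)
  (rKB : (3769/62500)*sB - (3/200000)*M ≤ sK)
  (rKC : (3769/62500)*sC - (3/200000)*M ≤ sK) :
  |sA| ≤ (1/100)*M ∧ |sB| ≤ (1/10)*M ∧ |sC| ≤ (3/25)*M ∧ |sD| ≤ (1/100)*M ∧ |sE| ≤ (1/100)*M ∧ |sF| ≤ (3/100)*M ∧ |sH| ≤ (1/25)*M ∧ |sK| ≤ (1/100)*M := by
  simp only [abs_le] at *
  obtain ⟨k1, k2⟩ := key
  refine ⟨⟨?_, ?_⟩, ⟨?_, ?_⟩, ⟨?_, ?_⟩, ⟨?_, ?_⟩, ⟨?_, ?_⟩, ⟨?_, ?_⟩, ⟨?_, ?_⟩, ⟨?_, ?_⟩⟩ <;> linarith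

theorem step_D (M uD wD sD sA sE : ℝ) (hM : 0 ≤ M)  (bsD : |sD| ≤ (1/100)*M) (bsA : |sA| ≤ (1/100)*M) (bsE : |sE| ≤ (1/100)*M)
  (eAD : |(-(1044891/1000000))*(0 - uD) + (180131/1000000)*(0 - wD) - (66269/62500)*(sA + sD)| ≤ (1/2500)*M) (eDE : |(-(214/15625))*(uD - 0) + (-(119827/1000000))*(wD - 0) - (3769/31250)*(sD + sE)| ≤ (1/2500)*M) :
  |uD| ≤ (3/100)*M ∧ |wD| ≤ (1/25)*M := by
  simp only [abs_le] at *
  refine ⟨⟨?_, ?_⟩, ⟨?_, ?_⟩⟩ <;> linarith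

theorem step_F (M uF wF sF sA sE : ℝ) (hM : 0 ≤ M)  (bsF : |sF| ≤ (3/100)*M) (bsA : |sA| ≤ (1/100)*M) (bsE : |sE| ≤ (1/100)*M)
  (eAF : |(-(1058587/1000000))*(0 - uF) + (-(3769/62500))*(0 - wF) - (66269/62500)*(sA + sF)| ≤ (1/2500)*M) (eEF : |0*(0 - uF) + (-(3769/31250))*(0 - wF) - (3769/31250)*(sE + sF)| ≤ (1/2500)*M) :
  |uF| ≤ (1/20)*M ∧ |wF| ≤ (3/50)*M := by
  simp only [abs_le] at *
  refine ⟨⟨?_, ?_⟩, ⟨?_, ?_⟩⟩ <;> linarith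

theorem step_H (M uF wF uH wH sH sE sF : ℝ) (hM : 0 ≤ M) (buF : |uF| ≤ (1/20)*M) (bwF : |wF| ≤ (3/50)*M) (bsH : |sH| ≤ (1/25)*M) (bsE : |sE| ≤ (1/100)*M) (bsF : |sF| ≤ (3/100)*M)
  (eEH : |(-(104449/1000000))*(0 - uH) + (-(3769/62500))*(0 - wH) - (3769/31250)*(sE + sH)| ≤ (1/2500)*M) (eFH : |(-(104449/1000000))*(uF - uH) + (3769/62500)*(wF - wH) - (3769/31250)*(sF + sH)| ≤ (1/2500)*M) :
  |uH| ≤ (7/50)*M ∧ |wH| ≤ (7/50)*M := by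
  simp only [abs_le] at *
  refine ⟨⟨?_, ?_⟩, ⟨?_, ?_⟩⟩ <;> linarith

theorem step_K (M uF wF uH wH uK wK sK sF sH : ℝ) (hM : 0 ≤ M) (buF : |uF| ≤ (1/20)*M) (bwF : |wF| ≤ (3/50)*M) (buH : |uH| ≤ (7/50)*M) (bwH : |wH| ≤ (7/50)*M) (bsK : |sK| ≤ (1/100)*M) (bsF : |sF| ≤ (3/100)*M) (bsH : |sH| ≤ (1/25)*M)
  (eFK : |(-(104449/1000000))*(uF - uK) + (-(60303/1000000))*(wF - wK) - (3769/31250)*(sF + sK)| ≤ (1/2500)*M) (eHK : |0*(uH - uK) + (-(120607/1000000))*(wH - wK) - (3769/31250)*(sH + sK)| ≤ (1/2500)*M) :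
  |uK| ≤ (13/50)*M ∧ |wK| ≤ (11/50)*M := by
  simp only [abs_le] at *
  refine ⟨⟨?_, ?_⟩, ⟨?_, ?_⟩⟩ <;> linarith

theorem step_B (M uD wD uB wB sB sA sD : ℝ) (hM : 0 ≤ M) (buD : |uD| ≤ (3/100)*M) (bwD : |wD| ≤ (1/25)*M) (bsB : |sB| ≤ (1/10)*M) (bsA : |sA| ≤ (1/100)*M) (bsD : |sD| ≤ (1/100)*M)
  (eAB : |(-(1745881/1000000))*(0 - uB) + (975653/1000000)*(0 - wB) - 2*(sA + sB)| ≤ (1/2500)*M) (eBD : |(70099/100000)*(uB - uD) + (-(397761/500000))*(wB - wD) - (66269/62500)*(sB + sD)| ≤ (1/2500)*M) :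
  |uB| ≤ (1/5)*M ∧ |wB| ≤ (7/25)*M := by
  simp only [abs_le] at *
  refine ⟨⟨?_, ?_⟩, ⟨?_, ?_⟩⟩ <;> linarith

theorem step_C (M uB wB uC wC sC sA sB : ℝ) (hM : 0 ≤ M) (buB : |uB| ≤ (1/5)*M) (bwB : |wB| ≤ (7/25)*M) (bsC : |sC| ≤ (3/25)*M) (bsA : |sA| ≤ (1/100)*M) (bsB : |sB| ≤ (1/10)*M)
  (eCA : |(1717881/1000000)*(uC - 0) + (1024151/1000000)*(wC - 0) - 2*(sC + sA)| ≤ (1/2500)*M) (eBC : |(7/250)*(uB - uC) + (-(499951/250000))*(wB - wC) - 2*(sB + sC)| ≤ (1/2500)*M) :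
  |uC| ≤ (7/20)*M ∧ |wC| ≤ (3/5)*M := by
  simp only [abs_le] at *
  refine ⟨⟨?_, ?_⟩, ⟨?_, ?_⟩⟩ <;> linarith

end Pool.Agent.Helper67.Rad
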