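import Pool.Agent.Helper67.Rad.P
import Pool.Agent.Helper67.Rad.Step

set_option autoImplicit false

/-!
# The contraction argument
-/

namespace Pool.Agent.Helper67.Rad

theorem edge_bound {X Y R X' Y' R' u w s M : ℝ} (hM0 : 0 ≤ M) (hM : M ≤ 1 / 20000)
    (hX : |X - X'| ≤ 30 / 1000000) (hY : |Y - Y'| ≤ 30 / 1000000) (hR : |R - R'| ≤ 30 / 1000000)
    (hu : |u| ≤ 2 * M) (hw : |w| ≤ 2 * M) (hs : |s| ≤ 2 * M)
    (h0 : R ^ 2 = X ^ 2 + Y ^ 2) (h1 : (R + s) ^ 2 = (X + u) ^ 2 + (Y + w) ^ 2) :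
    |X' * u + Y' * w - R' * s| ≤ (1 / 2500) * M := by
  have e : X' * u + Y' * w - R' * s =
      -((X - X') * u) - (Y - Y') * w + (R - R') * s + (s ^ 2 - u ^ 2 - w ^ 2) / 2 := by
    linear_combination (1 / 2) * h0 - (1 / 2) * h1
  have b1 : |(X - X') * u| ≤ 30 / 1000000 * (2 * M) := by
    rw [abs_mul]; exact mul_le_mul hX hu (abs_nonneg _) (by norm_num)
  have b2 : |(Y - Y') * w| ≤ 30 / 1000000 * (2 * M) := by
    rw [abs_mul]; exact mul_le_mul hY hw (abs_nonneg _) (by norm_num)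
  have b3 : |(R - R') * s| ≤ 30 / 1000000 * (2 * M) := by
    rw [abs_mul]; exact mul_le_mul hR hs (abs_nonneg _) (by norm_num)
  have q1 : u ^ 2 ≤ 4 * M ^ 2 := by
    rw [← sq_abs]; nlinarith [abs_nonneg u]
  have q2 : w ^ 2 ≤ 4 * M ^ 2 := by
    rw [← sq_abs]; nlinarith [abs_nonneg w]
  have q3 : s ^ 2 ≤ 4 * M ^ 2 := by
    rw [← sq_abs]; nlinarith [abs_nonneg s]
  have q4 : M ^ 2 ≤ 1 / 20000 * M := by nlinarith
  rw [abs_le] at b1 b2 b3
  rw [e, abs_le]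
  constructor <;> linarith [b1.1, b1.2, b2.1, b2.2, b3.1, b3.2, sq_nonneg u, sq_nonneg w, sq_nonneg s]

theorem approx_sub {a b A B : ℝ} (ha : |1000000 * a - A| ≤ 15) (hb : |1000000 * b - B| ≤ 15) :
    |(a - b) - (A / 1000000 - B / 1000000)| ≤ 30 / 1000000 := by
  rw [abs_le] at *
  constructor <;> linarith [ha.1, ha.2, hb.1, hb.2]

theorem approx_add {a b A B : ℝ} (ha : |1000000 * a - A| ≤ 15) (hb : |1000000 * b - B| ≤ 15) :
    |(a + b) - (A / 1000000 + B / 1000000)| ≤ 30 / 1000000 := by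
  rw [abs_le] at *
  constructor <;> linarith [ha.1, ha.2, hb.1, hb.2]

theorem abs_sub_two {a b M : ℝ} (ha : |a| ≤ M) (hb : |b| ≤ M) : |a - b| ≤ 2 * M := by
  rw [abs_le] at *
  constructor <;> linarith [ha.1, ha.2, hb.1, hb.2]

theorem abs_add_two {a b M : ℝ} (ha : |a| ≤ M) (hb : |b| ≤ M) : |a + b| ≤ 2 * M := by
  rw [abs_le] at *
  constructor <;> linarith [ha.1, ha.2, hb.1, hb.2]

theorem contract {r : ℝ} (hr : |r - (150759 / 2500000)| ≤ 1 / 10000000) (hg : gg r = 0)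
    (u w s : Fin 8 → ℝ) (M : ℝ) (hM0 : 0 ≤ M) (hM5 : M ≤ 1 / 20000)
    (hM : ∀ i, |u i| ≤ M ∧ |w i| ≤ M ∧ |s i| ≤ M)
    (hq : ∀ e ∈ edgeList, ((pp r e.1).2.2 + s e.1 + ((pp r e.2).2.2 + s e.2)) ^ 2 =
      ((pp r e.1).1 + u e.1 - ((pp r e.2).1 + u e.2)) ^ 2 +
        ((pp r e.1).2.1 + w e.1 - ((pp r e.2).2.1 + w e.2)) ^ 2)
    (hu0 : u 0 = 0) (hw0 : w 0 = 0) (hu4 : u 4 = 0) (hw4 : w 4 = 0) (hAE : s 0 + s 4 = 0)
    (hrat' : ∀ i j : Fin 8, 3 ≤ i → j ≤ 2 → r * (1 + s j) ≤ r + s i) :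
    ∀ i, |u i| ≤ 7 / 10 * M ∧ |w i| ≤ 7 / 10 * M ∧ |s i| ≤ 7 / 10 * M := by
  have hap := pp_approx hr
  have h0 : 0 < r := by rw [abs_le] at hr; linarith [hr.1]
  have hpe := pp_edges h0 hg
  have EB : ∀ e ∈ edgeList,
      |(((phatZ e.1).1 : ℝ) / 1000000 - ((phatZ e.2).1 : ℝ) / 1000000) * (u e.1 - u e.2) +
        (((phatZ e.1).2.1 : ℝ) / 1000000 - ((phatZ e.2).2.1 : ℝ) / 1000000) * (w e.1 - w e.2) -
        (((phatZ e.1).2.2 : ℝ) / 1000000 + ((phatZ e.2).2.2 : ℝ) / 1000000) * (s e.1 + s e.2)| ≤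
          (1 / 2500) * M := by
    intro e he
    have ha1 := hap e.1
    have ha2 := hap e.2
    push_cast at ha1 ha2
    refine edge_bound hM0 hM5 (approx_sub ha1.1 ha2.1) (approx_sub ha1.2.1 ha2.2.1)
      (approx_add ha1.2.2 ha2.2.2) (abs_sub_two (hM _).1 (hM _).1)
      (abs_sub_two (hM _).2.1 (hM _).2.1) (abs_add_two (hM _).2.2 (hM _).2.2) ?_ ?_
    · exact hpe e he
    · have := hq e he
      linear_combination this
  have hrat : ∀ i j : Fin 8, 3 ≤ i → j ≤ 2 → (3769/62500) * s j - (3/200000) * M ≤ s i := by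
    intro i j hi hj
    have h1 := hrat' i j hi hj
    have h2 : |(r - 3769/62500) * s j| ≤ 1 / 1000000 * M := by
      rw [abs_mul]
      refine mul_le_mul ?_ (hM j).2.2 (abs_nonneg _) (by norm_num)
      rw [abs_le] at *
      constructor <;> linarith [hr.1, hr.2]
    rw [abs_le] at h2
    nlinarith [h2.1, h2.2]
  have eAB : |(-(1745881/1000000))*(0 - u 1) + (975653/1000000)*(0 - w 1) - 2*(s 0 + s 1)| ≤ (1/2500)*M := by
    have h := EB (0, 1) (by decide)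
    have e : (-(1745881/1000000))*(0 - u 1) + (975653/1000000)*(0 - w 1) - 2*(s 0 + s 1) =
        (((phatZ 0).1 : ℝ) / 1000000 - ((phatZ 1).1 : ℝ) / 1000000) * (u 0 - u 1) +
        (((phatZ 0).2.1 : ℝ) / 1000000 - ((phatZ 1).2.1 : ℝ) / 1000000) * (w 0 - w 1) -
        (((phatZ 0).2.2 : ℝ) / 1000000 + ((phatZ 1).2.2 : ℝ) / 1000000) * (s 0 + s 1) := by
      simp only [phatZ, Matrix.cons_val, hu0, hw0]
      push_cast
      ring
    rw [e]; exact h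
  have eBC : |(7/250)*(u 1 - u 2) + (-(499951/250000))*(w 1 - w 2) - 2*(s 1 + s 2)| ≤ (1/2500)*M := by
    have h := EB (1, 2) (by decide)
    have e : (7/250)*(u 1 - u 2) + (-(499951/250000))*(w 1 - w 2) - 2*(s 1 + s 2) =
        (((phatZ 1).1 : ℝ) / 1000000 - ((phatZ 2).1 : ℝ) / 1000000) * (u 1 - u 2) +
        (((phatZ 1).2.1 : ℝ) / 1000000 - ((phatZ 2).2.1 : ℝ) / 1000000) * (w 1 - w 2) -
        (((phatZ 1).2.2 : ℝ) / 1000000 + ((phatZ 2).2.2 : ℝ) / 1000000) * (s 1 + s 2) := by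
      simp only [phatZ, Matrix.cons_val]
      push_cast
      ring
    rw [e]; exact h
  have eCA : |(1717881/1000000)*(u 2 - 0) + (1024151/1000000)*(w 2 - 0) - 2*(s 2 + s 0)| ≤ (1/2500)*M := by
    have h := EB (0, 2) (by decide)
    have e : (1717881/1000000)*(u 2 - 0) + (1024151/1000000)*(w 2 - 0) - 2*(s 2 + s 0) =
        (((phatZ 0).1 : ℝ) / 1000000 - ((phatZ 2).1 : ℝ) / 1000000) * (u 0 - u 2) +
        (((phatZ 0).2.1 : ℝ) / 1000000 - ((phatZ 2).2.1 : ℝ) / 1000000) * (w 0 - w 2) -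
        (((phatZ 0).2.2 : ℝ) / 1000000 + ((phatZ 2).2.2 : ℝ) / 1000000) * (s 0 + s 2) := by
      simp only [phatZ, Matrix.cons_val, hu0, hw0]
      push_cast
      ring
    rw [e]; exact h
  have eAD : |(-(1044891/1000000))*(0 - u 3) + (180131/1000000)*(0 - w 3) - (66269/62500)*(s 0 + s 3)| ≤ (1/2500)*M := by
    have h := EB (0, 3) (by decide)
    have e : (-(1044891/1000000))*(0 - u 3) + (180131/1000000)*(0 - w 3) - (66269/62500)*(s 0 + s 3) =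
        (((phatZ 0).1 : ℝ) / 1000000 - ((phatZ 3).1 : ℝ) / 1000000) * (u 0 - u 3) +
        (((phatZ 0).2.1 : ℝ) / 1000000 - ((phatZ 3).2.1 : ℝ) / 1000000) * (w 0 - w 3) -
        (((phatZ 0).2.2 : ℝ) / 1000000 + ((phatZ 3).2.2 : ℝ) / 1000000) * (s 0 + s 3) := by
      simp only [phatZ, Matrix.cons_val, hu0, hw0]
      push_cast
      ring
    rw [e]; exact h
  have eBD : |(70099/100000)*(u 1 - u 3) + (-(397761/500000))*(w 1 - w 3) - (66269/62500)*(s 1 + s 3)| ≤ (1/2500)*M := by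
    have h := EB (1, 3) (by decide)
    have e : (70099/100000)*(u 1 - u 3) + (-(397761/500000))*(w 1 - w 3) - (66269/62500)*(s 1 + s 3) =
        (((phatZ 1).1 : ℝ) / 1000000 - ((phatZ 3).1 : ℝ) / 1000000) * (u 1 - u 3) +
        (((phatZ 1).2.1 : ℝ) / 1000000 - ((phatZ 3).2.1 : ℝ) / 1000000) * (w 1 - w 3) -
        (((phatZ 1).2.2 : ℝ) / 1000000 + ((phatZ 3).2.2 : ℝ) / 1000000) * (s 1 + s 3) := by
      simp only [phatZ, Matrix.cons_val]
      push_cast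
      ring
    rw [e]; exact h
  have eDE : |(-(214/15625))*(u 3 - 0) + (-(119827/1000000))*(w 3 - 0) - (3769/31250)*(s 3 + s 4)| ≤ (1/2500)*M := by
    have h := EB (3, 4) (by decide)
    have e : (-(214/15625))*(u 3 - 0) + (-(119827/1000000))*(w 3 - 0) - (3769/31250)*(s 3 + s 4) =
        (((phatZ 3).1 : ℝ) / 1000000 - ((phatZ 4).1 : ℝ) / 1000000) * (u 3 - u 4) +
        (((phatZ 3).2.1 : ℝ) / 1000000 - ((phatZ 4).2.1 : ℝ) / 1000000) * (w 3 - w 4) -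
        (((phatZ 3).2.2 : ℝ) / 1000000 + ((phatZ 4).2.2 : ℝ) / 1000000) * (s 3 + s 4) := by
      simp only [phatZ, Matrix.cons_val, hu4, hw4]
      push_cast
      ring
    rw [e]; exact h
  have eAF : |(-(1058587/1000000))*(0 - u 5) + (-(3769/62500))*(0 - w 5) - (66269/62500)*(s 0 + s 5)| ≤ (1/2500)*M := by
    have h := EB (0, 5) (by decide)
    have e : (-(1058587/1000000))*(0 - u 5) + (-(3769/62500))*(0 - w 5) - (66269/62500)*(s 0 + s 5) =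
        (((phatZ 0).1 : ℝ) / 1000000 - ((phatZ 5).1 : ℝ) / 1000000) * (u 0 - u 5) +
        (((phatZ 0).2.1 : ℝ) / 1000000 - ((phatZ 5).2.1 : ℝ) / 1000000) * (w 0 - w 5) -
        (((phatZ 0).2.2 : ℝ) / 1000000 + ((phatZ 5).2.2 : ℝ) / 1000000) * (s 0 + s 5) := by
      simp only [phatZ, Matrix.cons_val, hu0, hw0]
      push_cast
      ring
    rw [e]; exact h
  have eEF : |0*(0 - u 5) + (-(3769/31250))*(0 - w 5) - (3769/31250)*(s 4 + s 5)| ≤ (1/2500)*M := by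
    have h := EB (4, 5) (by decide)
    have e : 0*(0 - u 5) + (-(3769/31250))*(0 - w 5) - (3769/31250)*(s 4 + s 5) =
        (((phatZ 4).1 : ℝ) / 1000000 - ((phatZ 5).1 : ℝ) / 1000000) * (u 4 - u 5) +
        (((phatZ 4).2.1 : ℝ) / 1000000 - ((phatZ 5).2.1 : ℝ) / 1000000) * (w 4 - w 5) -
        (((phatZ 4).2.2 : ℝ) / 1000000 + ((phatZ 5).2.2 : ℝ) / 1000000) * (s 4 + s 5) := by
      simp only [phatZ, Matrix.cons_val, hu4, hw4]
      push_cast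
      ring
    rw [e]; exact h
  have eEH : |(-(104449/1000000))*(0 - u 6) + (-(3769/62500))*(0 - w 6) - (3769/31250)*(s 4 + s 6)| ≤ (1/2500)*M := by
    have h := EB (4, 6) (by decide)
    have e : (-(104449/1000000))*(0 - u 6) + (-(3769/62500))*(0 - w 6) - (3769/31250)*(s 4 + s 6) =
        (((phatZ 4).1 : ℝ) / 1000000 - ((phatZ 6).1 : ℝ) / 1000000) * (u 4 - u 6) +
        (((phatZ 4).2.1 : ℝ) / 1000000 - ((phatZ 6).2.1 : ℝ) / 1000000) * (w 4 - w 6) -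
        (((phatZ 4).2.2 : ℝ) / 1000000 + ((phatZ 6).2.2 : ℝ) / 1000000) * (s 4 + s 6) := by
      simp only [phatZ, Matrix.cons_val, hu4, hw4]
      push_cast
      ring
    rw [e]; exact h
  have eFH : |(-(104449/1000000))*(u 5 - u 6) + (3769/62500)*(w 5 - w 6) - (3769/31250)*(s 5 + s 6)| ≤ (1/2500)*M := by
    have h := EB (5, 6) (by decide)
    have e : (-(104449/1000000))*(u 5 - u 6) + (3769/62500)*(w 5 - w 6) - (3769/31250)*(s 5 + s 6) =
        (((phatZ 5).1 : ℝ) / 1000000 - ((phatZ 6).1 : ℝ) / 1000000) * (u 5 - u 6) +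
        (((phatZ 5).2.1 : ℝ) / 1000000 - ((phatZ 6).2.1 : ℝ) / 1000000) * (w 5 - w 6) -
        (((phatZ 5).2.2 : ℝ) / 1000000 + ((phatZ 6).2.2 : ℝ) / 1000000) * (s 5 + s 6) := by
      simp only [phatZ, Matrix.cons_val]
      push_cast
      ring
    rw [e]; exact h
  have eFK : |(-(104449/1000000))*(u 5 - u 7) + (-(60303/1000000))*(w 5 - w 7) - (3769/31250)*(s 5 + s 7)| ≤ (1/2500)*M := by
    have h := EB (5, 7) (by decide)
    have e : (-(104449/1000000))*(u 5 - u 7) + (-(60303/1000000))*(w 5 - w 7) - (3769/31250)*(s 5 + s 7) =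
        (((phatZ 5).1 : ℝ) / 1000000 - ((phatZ 7).1 : ℝ) / 1000000) * (u 5 - u 7) +
        (((phatZ 5).2.1 : ℝ) / 1000000 - ((phatZ 7).2.1 : ℝ) / 1000000) * (w 5 - w 7) -
        (((phatZ 5).2.2 : ℝ) / 1000000 + ((phatZ 7).2.2 : ℝ) / 1000000) * (s 5 + s 7) := by
      simp only [phatZ, Matrix.cons_val]
      push_cast
      ring
    rw [e]; exact h
  have eHK : |0*(u 6 - u 7) + (-(120607/1000000))*(w 6 - w 7) - (3769/31250)*(s 6 + s 7)| ≤ (1/2500)*M := by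
    have h := EB (6, 7) (by decide)
    have e : 0*(u 6 - u 7) + (-(120607/1000000))*(w 6 - w 7) - (3769/31250)*(s 6 + s 7) =
        (((phatZ 6).1 : ℝ) / 1000000 - ((phatZ 7).1 : ℝ) / 1000000) * (u 6 - u 7) +
        (((phatZ 6).2.1 : ℝ) / 1000000 - ((phatZ 7).2.1 : ℝ) / 1000000) * (w 6 - w 7) -
        (((phatZ 6).2.2 : ℝ) / 1000000 + ((phatZ 7).2.2 : ℝ) / 1000000) * (s 6 + s 7) := by
      simp only [phatZ, Matrix.cons_val]
      push_cast
      ring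
    rw [e]; exact h
  have eKC : |(-(110969/200000))*(u 7 - u 2) + (-(112943/125000))*(w 7 - w 2) - (66269/62500)*(s 7 + s 2)| ≤ (1/2500)*M := by
    have h := EB (2, 7) (by decide)
    have e : (-(110969/200000))*(u 7 - u 2) + (-(112943/125000))*(w 7 - w 2) - (66269/62500)*(s 7 + s 2) =
        (((phatZ 2).1 : ℝ) / 1000000 - ((phatZ 7).1 : ℝ) / 1000000) * (u 2 - u 7) +
        (((phatZ 2).2.1 : ℝ) / 1000000 - ((phatZ 7).2.1 : ℝ) / 1000000) * (w 2 - w 7) -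
        (((phatZ 2).2.2 : ℝ) / 1000000 + ((phatZ 7).2.2 : ℝ) / 1000000) * (s 2 + s 7) := by
      simp only [phatZ, Matrix.cons_val]
      push_cast
      ring
    rw [e]; exact h
  have key := step_key M (u 1) (w 1) (u 2) (w 2) (u 3) (w 3) (u 5) (w 5) (u 6) (w 6) (u 7) (w 7) (s 0) (s 1) (s 2) (s 3) (s 4) (s 5) (s 6) (s 7)
    (hM 1).1 (hM 1).2.1 (hM 2).1 (hM 2).2.1 (hM 3).1 (hM 3).2.1 (hM 5).1 (hM 5).2.1 (hM 6).1 (hM 6).2.1 (hM 7).1 (hM 7).2.1 (hM 0).2.2 (hM 1).2.2 (hM 2).2.2 (hM 3).2.2 (hM 4).2.2 (hM 5).2.2 (hM 6).2.2 (hM 7).2.2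
    eAB eBC eCA eAD eBD eDE eAF eEF eEH eFH eFK eHK eKC
  obtain ⟨sA, sB, sC, sD, sE, sF, sH, sK⟩ := step_s M (s 0) (s 1) (s 2) (s 3) (s 4) (s 5) (s 6) (s 7) hM0 key hAE
    (hrat 3 0 (by decide) (by decide)) (hrat 3 1 (by decide) (by decide)) (hrat 3 2 (by decide) (by decide)) (hrat 4 0 (by decide) (by decide)) (hrat 4 1 (by decide) (by decide)) (hrat 4 2 (by decide) (by decide)) (hrat 5 0 (by decide) (by decide)) (hrat 5 1 (by decide) (by decide)) (hrat 5 2 (by decide) (by decide)) (hrat 6 0 (by decide) (by decide)) (hrat 6 1 (by decide) (by decide)) (hrat 6 2 (by decide) (by decide)) (hrat 7 0 (by decide) (by decide)) (hrat 7 1 (by decide) (by decide)) (hrat 7 2 (by decide) (by decide))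
  obtain ⟨uD, wD⟩ := step_D M (u 3) (w 3) (s 3) (s 0) (s 4) hM0 sD sA sE eAD eDE
  obtain ⟨uF, wF⟩ := step_F M (u 5) (w 5) (s 5) (s 0) (s 4) hM0 sF sA sE eAF eEF
  obtain ⟨uH, wH⟩ := step_H M (u 5) (w 5) (u 6) (w 6) (s 6) (s 4) (s 5) hM0 uF wF sH sE sF eEH eFH
  obtain ⟨uK, wK⟩ := step_K M (u 5) (w 5) (u 6) (w 6) (u 7) (w 7) (s 7) (s 5) (s 6) hM0 uF wF uH wH sK sF sH eFK eHK
  obtain ⟨uB, wB⟩ := step_B M (u 3) (w 3) (u 1) (w 1) (s 1) (s 0) (s 3) hM0 uD wD sB sA sD eAB eBD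
  obtain ⟨uC, wC⟩ := step_C M (u 1) (w 1) (u 2) (w 2) (s 2) (s 0) (s 1) hM0 uB wB sC sA sB eCA eBC
  have fin : ∀ {a c : ℝ}, c ≤ 7 / 10 → |a| ≤ c * M → |a| ≤ 7 / 10 * M := by
    intro a c hc ha
    nlinarith
  have z : |(0 : ℝ)| ≤ 7 / 10 * M := by rw [abs_zero]; positivity
  intro i
  fin_cases i
  · exact ⟨by show |u 0| ≤ _; rw [hu0]; exact z, by show |w 0| ≤ _; rw [hw0]; exact z,
      fin (by norm_num) sA⟩
  · exact ⟨fin (by norm_num) uB, fin (by norm_num) wB, fin (by norm_num) sB⟩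
  · exact ⟨fin (by norm_num) uC, fin (by norm_num) wC, fin (by norm_num) sC⟩
  · exact ⟨fin (by norm_num) uD, fin (by norm_num) wD, fin (by norm_num) sD⟩
  · exact ⟨by show |u 4| ≤ _; rw [hu4]; exact z, by show |w 4| ≤ _; rw [hw4]; exact z,
      fin (by norm_num) sE⟩
  · exact ⟨fin (by norm_num) uF, fin (by norm_num) wF, fin (by norm_num) sF⟩
  · exact ⟨fin (by norm_num) uH, fin (by norm_num) wH, fin (by norm_num) sH⟩
  · exact ⟨fin (by norm_num) uK, fin (by norm_num) wK, fin (by norm_num) sK⟩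

end Pool.Agent.Helper67.Rad
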