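import Pool.Agent.Helper67.Rad.Local

set_option autoImplicit false

/-!
# The configuration is a local maximum
-/

namespace Pool.Agent.Helper67.Rad

open Filter Topology

/-- the similarity normalisation moving the centres of disks `0` and `4` to their places in `pp r` -/
noncomputable def nrm (r : ℝ) (q : Fin 8 → ℝ × ℝ × ℝ) (i : Fin 8) : ℝ × ℝ × ℝ :=
  ((hh r * ((q 4).1 - (q 0).1) + (-r) * ((q 4).2.1 - (q 0).2.1)) /
      (((q 4).1 - (q 0).1) ^ 2 + ((q 4).2.1 - (q 0).2.1) ^ 2) * ((q i).1 - (q 0).1) -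
    ((-r) * ((q 4).1 - (q 0).1) - hh r * ((q 4).2.1 - (q 0).2.1)) /
      (((q 4).1 - (q 0).1) ^ 2 + ((q 4).2.1 - (q 0).2.1) ^ 2) * ((q i).2.1 - (q 0).2.1),
   ((-r) * ((q 4).1 - (q 0).1) - hh r * ((q 4).2.1 - (q 0).2.1)) /
      (((q 4).1 - (q 0).1) ^ 2 + ((q 4).2.1 - (q 0).2.1) ^ 2) * ((q i).1 - (q 0).1) +
    (hh r * ((q 4).1 - (q 0).1) + (-r) * ((q 4).2.1 - (q 0).2.1)) /
      (((q 4).1 - (q 0).1) ^ 2 + ((q 4).2.1 - (q 0).2.1) ^ 2) * ((q i).2.1 - (q 0).2.1),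
   (1 + r) / ((q 0).2.2 + (q 4).2.2) * (q i).2.2)

theorem nrm_fix {r : ℝ} (h0 : 0 < r) : nrm r (pp r) = pp r := by
  funext i
  have h1 : hh r ^ 2 = 1 + 2 * r := hh_sq h0
  have hN : hh r ^ 2 + r ^ 2 ≠ 0 := by rw [h1]; positivity
  have hN' : hh r ^ 2 + (-r) ^ 2 ≠ 0 := by rw [h1]; positivity
  have h1r : (1 + r) ≠ 0 := by positivity
  have e0 : pp r 0 = (0, 0, 1) := rfl
  have e4 : pp r 4 = (hh r, -r, r) := rfl
  unfold nrm
  rw [e0, e4]
  simp only [sub_zero]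
  have w1 : (hh r * hh r + -r * -r) / (hh r ^ 2 + (-r) ^ 2) = 1 := by
    rw [div_eq_one_iff_eq hN']; ring
  have w2 : (-r * hh r - hh r * -r) / (hh r ^ 2 + (-r) ^ 2) = 0 := by
    rw [div_eq_zero_iff]; left; ring
  rw [w1, w2, div_self h1r]
  ext <;> simp

theorem nrm_cont {r : ℝ} (h0 : 0 < r) : ContinuousAt (nrm r) (pp r) := by
  have h1 : hh r ^ 2 = 1 + 2 * r := hh_sq h0
  have e0 : pp r 0 = (0, 0, 1) := rfl
  have e4 : pp r 4 = (hh r, -r, r) := rfl
  have hN : ((pp r 4).1 - (pp r 0).1) ^ 2 + ((pp r 4).2.1 - (pp r 0).2.1) ^ 2 ≠ 0 := by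
    rw [e0, e4]
    simp only [sub_zero]
    rw [h1]; positivity
  have hR : (pp r 0).2.2 + (pp r 4).2.2 ≠ 0 := by
    rw [e0, e4]
    simp only
    positivity
  rw [continuousAt_pi]
  intro i
  have cx : ∀ j : Fin 8, ContinuousAt (fun q : Fin 8 → ℝ × ℝ × ℝ => (q j).1) (pp r) := fun j =>
    (continuous_fst.comp (continuous_apply j)).continuousAt
  have cy : ∀ j : Fin 8, ContinuousAt (fun q : Fin 8 → ℝ × ℝ × ℝ => (q j).2.1) (pp r) := fun j =>
    (continuous_fst.comp (continuous_snd.comp (continuous_apply j))).continuousAt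
  have cz : ∀ j : Fin 8, ContinuousAt (fun q : Fin 8 → ℝ × ℝ × ℝ => (q j).2.2) (pp r) := fun j =>
    (continuous_snd.comp (continuous_snd.comp (continuous_apply j))).continuousAt
  have dx : ∀ j : Fin 8, ContinuousAt (fun q : Fin 8 → ℝ × ℝ × ℝ => (q j).1 - (q 0).1) (pp r) :=
    fun j => (cx j).sub (cx 0)
  have dy : ∀ j : Fin 8, ContinuousAt (fun q : Fin 8 → ℝ × ℝ × ℝ => (q j).2.1 - (q 0).2.1)
      (pp r) := fun j => (cy j).sub (cy 0)
  have cN : ContinuousAt (fun q : Fin 8 → ℝ × ℝ × ℝ =>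
      ((q 4).1 - (q 0).1) ^ 2 + ((q 4).2.1 - (q 0).2.1) ^ 2) (pp r) :=
    ((dx 4).pow 2).add ((dy 4).pow 2)
  have w1 : ContinuousAt (fun q : Fin 8 → ℝ × ℝ × ℝ =>
      (hh r * ((q 4).1 - (q 0).1) + (-r) * ((q 4).2.1 - (q 0).2.1)) /
        (((q 4).1 - (q 0).1) ^ 2 + ((q 4).2.1 - (q 0).2.1) ^ 2)) (pp r) :=
    ((continuousAt_const.mul (dx 4)).add (continuousAt_const.mul (dy 4))).div cN hN
  have w2 : ContinuousAt (fun q : Fin 8 → ℝ × ℝ × ℝ =>
      ((-r) * ((q 4).1 - (q 0).1) - hh r * ((q 4).2.1 - (q 0).2.1)) /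
        (((q 4).1 - (q 0).1) ^ 2 + ((q 4).2.1 - (q 0).2.1) ^ 2)) (pp r) :=
    ((continuousAt_const.mul (dx 4)).sub (continuousAt_const.mul (dy 4))).div cN hN
  have m : ContinuousAt (fun q : Fin 8 → ℝ × ℝ × ℝ =>
      (1 + r) / ((q 0).2.2 + (q 4).2.2)) (pp r) :=
    continuousAt_const.div ((cz 0).add (cz 4)) hR
  exact ((w1.mul (dx i)).sub (w2.mul (dy i))).prodMk
    (((w2.mul (dx i)).add (w1.mul (dy i))).prodMk (m.mul (cz i)))

theorem bdd_above (f : Fin 8 → ℝ) : BddAbove (Set.range f) := (Set.finite_range f).bddAbove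

theorem bdd_below (f : Fin 8 → ℝ) : BddBelow (Set.range f) := (Set.finite_range f).bddBelow

theorem ratio_pp {r : ℝ} (hr1 : r ≤ 1) : radiusRatio (pp r) = r := by
  have h1 : (⨅ i, radius (pp r) i) = r := by
    apply le_antisymm
    · have := ciInf_le (bdd_below (radius (pp r))) 3
      exact this
    · refine le_ciInf fun i => ?_
      rw [pp_radius]
      split_ifs
      · exact hr1
      · exact le_rfl
  have h2 : (⨆ i, radius (pp r) i) = 1 := by
    apply le_antisymm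
    · refine ciSup_le fun i => ?_
      rw [pp_radius]
      split_ifs
      · exact le_rfl
      · exact hr1
    · have := le_ciSup (bdd_above (radius (pp r))) 0
      exact this
  rw [radiusRatio, h1, h2, div_one]

theorem lt_of_ratio {r : ℝ} (h0 : 0 < r) {q : Fin 8 → ℝ × ℝ × ℝ} (hpos : ∀ i, 0 < radius q i)
    (h : r < radiusRatio q) (i j : Fin 8) : r * radius q j < radius q i := by
  have h1 : (⨅ i, radius q i) ≤ radius q i := ciInf_le (bdd_below (radius q)) i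
  have h2 : radius q j ≤ (⨆ i, radius q i) := le_ciSup (bdd_above (radius q)) j
  have h3 : 0 < (⨆ i, radius q i) := (hpos j).trans_le h2
  unfold radiusRatio at h
  rw [lt_div_iff₀ h3] at h
  calc r * radius q j ≤ r * (⨆ i, radius q i) := mul_le_mul_of_nonneg_left h2 h0.le
    _ < ⨅ i, radius q i := h
    _ ≤ radius q i := h1

theorem local_max {r : ℝ} (hr : |r - (150759 / 2500000)| ≤ 1 / 10000000) (hg : gg r = 0) :
    IsLocalMaxOn radiusRatio (packings G D) (pp r) := by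
  have h0 : 0 < r := by rw [abs_le] at hr; linarith [hr.1]
  have hr1 : r ≤ 1 := by rw [abs_le] at hr; linarith [hr.2]
  have hev : ∀ᶠ q in 𝓝 (pp r), dist (nrm r q) (pp r) < 1 / 20000 := by
    have hc := nrm_cont h0
    have hb : Metric.ball (pp r) (1 / 20000) ∈ 𝓝 (nrm r (pp r)) := by
      rw [nrm_fix h0]
      exact Metric.ball_mem_nhds _ (by norm_num)
    filter_upwards [hc hb] with q hq
    exact hq
  have hev' : ∀ᶠ q in 𝓝[packings G D] (pp r), dist (nrm r q) (pp r) < 1 / 20000 :=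
    nhdsWithin_le_nhds hev
  filter_upwards [hev', self_mem_nhdsWithin] with q hqd hqS
  by_contra hlt
  rw [not_le, ratio_pp hr1] at hlt
  obtain ⟨hpos, hedge, -⟩ := hqS
  have hrat := lt_of_ratio h0 hpos hlt
  set Q := nrm r q with hQ
  -- notation
  set v1 := (q 4).1 - (q 0).1 with hv1
  set v2 := (q 4).2.1 - (q 0).2.1 with hv2
  have hAE : ((q 0).2.2 + (q 4).2.2) ^ 2 = v1 ^ 2 + v2 ^ 2 := by
    have := hedge 0 4 (by show adjB 0 4 = true; decide)
    simp only [radius, centre] at this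
    rw [this, hv1, hv2]; ring
  have hR : 0 < (q 0).2.2 + (q 4).2.2 := add_pos (hpos 0) (hpos 4)
  have hN : 0 < v1 ^ 2 + v2 ^ 2 := by rw [← hAE]; positivity
  obtain ⟨w1, hw1⟩ : ∃ w1, w1 = (hh r * v1 + (-r) * v2) / (v1 ^ 2 + v2 ^ 2) := ⟨_, rfl⟩
  obtain ⟨w2, hw2⟩ : ∃ w2, w2 = ((-r) * v1 - hh r * v2) / (v1 ^ 2 + v2 ^ 2) := ⟨_, rfl⟩
  obtain ⟨m, hm⟩ : ∃ m, m = (1 + r) / ((q 0).2.2 + (q 4).2.2) := ⟨_, rfl⟩
  have hm0 : 0 < m := by rw [hm]; positivity
  have hh2 : hh r ^ 2 = 1 + 2 * r := hh_sq h0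
  have hmR : m * ((q 0).2.2 + (q 4).2.2) = 1 + r := by
    rw [hm]; field_simp
  have hww : w1 ^ 2 + w2 ^ 2 = m ^ 2 := by
    have e1 : (w1 ^ 2 + w2 ^ 2) * (v1 ^ 2 + v2 ^ 2) = (1 + r) ^ 2 := by
      rw [hw1, hw2]
      field_simp
      linear_combination (v1 ^ 2 + v2 ^ 2) * hh2
    have e2 : m ^ 2 * (v1 ^ 2 + v2 ^ 2) = (1 + r) ^ 2 := by
      rw [← hAE, ← mul_pow, hmR]
    exact mul_right_cancel₀ hN.ne' (e1.trans e2.symm)
  have hQi : ∀ i, Q i = (w1 * ((q i).1 - (q 0).1) - w2 * ((q i).2.1 - (q 0).2.1),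
      w2 * ((q i).1 - (q 0).1) + w1 * ((q i).2.1 - (q 0).2.1), m * (q i).2.2) := by
    intro i
    rw [hQ, hw1, hw2, hm]
    rfl
  have hw1v : w1 * v1 - w2 * v2 = hh r := by
    rw [hw1, hw2]; field_simp; ring
  have hw2v : w2 * v1 + w1 * v2 = -r := by
    rw [hw1, hw2]; field_simp; ring
  -- deviations
  have hdev : ∀ i, dist (Q i) (pp r i) ≤ dist Q (pp r) := fun i => dist_le_pi_dist Q (pp r) i
  have hM : ∀ i, |(Q i).1 - (pp r i).1| ≤ dist Q (pp r) ∧ |(Q i).2.1 - (pp r i).2.1| ≤ dist Q (pp r) ∧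
      |(Q i).2.2 - (pp r i).2.2| ≤ dist Q (pp r) := by
    intro i
    have h1 := hdev i
    rw [Prod.dist_eq, Prod.dist_eq] at h1
    simp only [max_le_iff, Real.dist_eq] at h1
    exact h1
  have hc := contract hr hg (fun i => (Q i).1 - (pp r i).1) (fun i => (Q i).2.1 - (pp r i).2.1)
    (fun i => (Q i).2.2 - (pp r i).2.2) (dist Q (pp r)) dist_nonneg hqd.le hM ?_ ?_ ?_ ?_ ?_ ?_ ?_
  · have hle : dist Q (pp r) ≤ 7 / 10 * dist Q (pp r) := by
      rw [dist_pi_le_iff (by positivity)]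
      intro i
      obtain ⟨c1, c2, c3⟩ := hc i
      rw [Prod.dist_eq, Prod.dist_eq]
      simp only [max_le_iff, Real.dist_eq]
      exact ⟨c1, c2, c3⟩
    have hz : dist Q (pp r) = 0 := by
      have := dist_nonneg (x := Q) (y := pp r)
      linarith
    have hQp : Q = pp r := dist_eq_zero.1 hz
    have e0 : (Q 0).2.2 = 1 := by rw [hQp]; rfl
    have e3 : (Q 3).2.2 = r := by rw [hQp]; rfl
    rw [hQi] at e0 e3
    simp only at e0 e3
    have := hrat 3 0
    simp only [radius] at this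
    have h5 := mul_lt_mul_of_pos_left this hm0
    nlinarith
  · -- edges
    intro e he
    have hadj : G.Adj e.1 e.2 := by
      have : ∀ e ∈ edgeList, adjB e.1 e.2 = true := by decide
      exact this e he
    have h1 := hedge e.1 e.2 hadj
    simp only [radius, centre] at h1
    simp only [hQi]
    linear_combination m ^ 2 * h1 - (((q e.1).1 - (q e.2).1) ^ 2 + ((q e.1).2.1 - (q e.2).2.1) ^ 2) * hww
  · simp only [hQi]
    show _ - (0 : ℝ) = 0
    ring
  · simp only [hQi]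
    show _ - (0 : ℝ) = 0
    ring
  · simp only [hQi]
    show w1 * v1 - w2 * v2 - hh r = 0
    rw [hw1v, sub_self]
  · simp only [hQi]
    show w2 * v1 + w1 * v2 - -r = 0
    rw [hw2v, sub_self]
  · simp only [hQi]
    show m * (q 0).2.2 - 1 + (m * (q 4).2.2 - r) = 0
    linear_combination hmR
  · intro i j hi hj
    have ei : (pp r i).2.2 = r := by
      have := pp_radius r i
      rw [if_neg] at this
      · exact this
      · have : ∀ i : Fin 8, 3 ≤ i → ¬ (i = 0 ∨ i = 1 ∨ i = 2) := by decide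
        exact this i hi
    have ej : (pp r j).2.2 = 1 := by
      have := pp_radius r j
      rw [if_pos] at this
      · exact this
      · have : ∀ j : Fin 8, j ≤ 2 → (j = 0 ∨ j = 1 ∨ j = 2) := by decide
        exact this j hj
    have h1 := mul_lt_mul_of_pos_left (hrat i j) hm0
    simp only [hQi, ei, ej, radius] at h1 ⊢
    linarith

end Pool.Agent.Helper67.Rad
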