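import Pool.Agent.Helper67.Rad.Bounds

set_option autoImplicit false

/-!
# The local maximum
-/

namespace Pool.Agent.Helper67.Rad

open Set

/-- the configuration with small radius `r` -/
noncomputable def pp (r : ℝ) : Fin 8 → ℝ × ℝ × ℝ :=
  ![(0, 0, 1), (xB r, yB r, 1), (xC r, yC r, 1), (xD r, yD r, r), (hh r, -r, r), (hh r, r, r),
    (xK r, 0, r), (xK r, 2 * r, r)]

theorem exists_rho : ∃ r : ℝ, |r - (150759 / 2500000)| ≤ 1 / 10000000 ∧ gg r = 0 := by
  have key : ∀ r ∈ Icc (603035 / 10000000 : ℝ) (603037 / 10000000), (1 + r) * (1 + r) ≠ 0 := by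
    intro r hr
    have : 0 < 1 + r := by linarith [hr.1]
    positivity
  have hr : ContinuousOn (fun r : ℝ => r) (Icc (603035 / 10000000 : ℝ) (603037 / 10000000)) :=
    continuousOn_id
  have hu : ContinuousOn uu (Icc (603035 / 10000000 : ℝ) (603037 / 10000000)) := by
    unfold uu
    exact ContinuousOn.inv₀ (by fun_prop) key
  have hc : ContinuousOn cc (Icc (603035 / 10000000 : ℝ) (603037 / 10000000)) :=
    continuousOn_const.sub (continuousOn_const.mul ((hr.mul hr).mul hu))
  have hh' : ContinuousOn hh (Icc (603035 / 10000000 : ℝ) (603037 / 10000000)) := by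
    unfold hh; fun_prop
  have hs : ContinuousOn ss (Icc (603035 / 10000000 : ℝ) (603037 / 10000000)) := by
    unfold ss; fun_prop
  have hxD : ContinuousOn xD (Icc (603035 / 10000000 : ℝ) (603037 / 10000000)) :=
    hh'.mul ((continuousOn_const.mul hc).sub continuousOn_const)
  have hyD : ContinuousOn yD (Icc (603035 / 10000000 : ℝ) (603037 / 10000000)) :=
    (hr.mul ((continuousOn_const.mul hc).add continuousOn_const)).neg
  have hxB : ContinuousOn xB (Icc (603035 / 10000000 : ℝ) (603037 / 10000000)) :=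
    continuousOn_const.mul (hu.mul (hxD.add (hs.mul hyD)))
  have hyB : ContinuousOn yB (Icc (603035 / 10000000 : ℝ) (603037 / 10000000)) :=
    continuousOn_const.mul (hu.mul (hyD.sub (hs.mul hxD)))
  have hxC : ContinuousOn xC (Icc (603035 / 10000000 : ℝ) (603037 / 10000000)) :=
    (continuousOn_const.mul hxB).sub (continuousOn_const.mul (continuousOn_const.mul hyB))
  have hyC : ContinuousOn yC (Icc (603035 / 10000000 : ℝ) (603037 / 10000000)) :=
    (continuousOn_const.mul (continuousOn_const.mul hxB)).add (continuousOn_const.mul hyB)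
  have hxK : ContinuousOn xK (Icc (603035 / 10000000 : ℝ) (603037 / 10000000)) :=
    hh'.add (continuousOn_const.mul hr)
  have hg : ContinuousOn gg (Icc (603035 / 10000000 : ℝ) (603037 / 10000000)) :=
    (((hxK.sub hxC).mul (hxK.sub hxC)).add
      (((continuousOn_const.mul hr).sub hyC).mul ((continuousOn_const.mul hr).sub hyC))).sub
      ((continuousOn_const.add hr).mul (continuousOn_const.add hr))
  have ga := case_a (603035 / 10000000) (by norm_num)
  have gb := case_b (603037 / 10000000) (by norm_num)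
  rw [abs_le] at ga gb
  have hmem : (0 : ℝ) ∈ Icc (gg (603037 / 10000000)) (gg (603035 / 10000000)) := by
    constructor
    · linarith [gb.2]
    · linarith [ga.1]
  obtain ⟨r, hr1, hr2⟩ := intermediate_value_Icc' (by norm_num) hg hmem
  refine ⟨r, ?_, hr2⟩
  rw [abs_le]
  constructor <;> linarith [hr1.1, hr1.2]

section identities

variable {r : ℝ}

theorem hh_sq (h0 : 0 < r) : hh r ^ 2 = 1 + 2 * r := Real.sq_sqrt (by linarith)

theorem ss_sq (h0 : 0 < r) : ss r ^ 2 = r * (2 + r) := Real.sq_sqrt (by positivity)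

theorem uu_mul (h0 : 0 < r) : uu r * (1 + r) ^ 2 = 1 := by
  unfold uu
  have : (1 + r) * (1 + r) ≠ 0 := by positivity
  field_simp

theorem cc_mul (h0 : 0 < r) : cc r * (1 + r) ^ 2 = 1 + 2 * r - r ^ 2 := by
  unfold cc
  linear_combination (-2 * r ^ 2) * uu_mul h0

theorem q_sq : (√3 : ℝ) ^ 2 = 3 := Real.sq_sqrt (by norm_num)

theorem edge_AD (h0 : 0 < r) : xD r ^ 2 + yD r ^ 2 = (1 + r) ^ 2 := by
  unfold xD yD
  linear_combination (4 * cc r ^ 2 - 4 * cc r + 1) * hh_sq h0 + 4 * cc r * cc_mul h0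

theorem edge_AB (h0 : 0 < r) : xB r ^ 2 + yB r ^ 2 = 4 := by
  have h1 : xB r ^ 2 + yB r ^ 2 = 4 * uu r ^ 2 * (1 + ss r ^ 2) * (xD r ^ 2 + yD r ^ 2) := by
    unfold xB yB; ring
  rw [h1, edge_AD h0, ss_sq h0]
  linear_combination (4 * uu r * (1 + r) ^ 2 + 4) * uu_mul h0

theorem edge_BD (h0 : 0 < r) : (xB r - xD r) ^ 2 + (yB r - yD r) ^ 2 = (1 + r) ^ 2 := by
  have h1 : xB r * xD r + yB r * yD r = 2 * uu r * (xD r ^ 2 + yD r ^ 2) := by
    unfold xB yB; ring
  rw [edge_AD h0] at h1
  linear_combination edge_AB h0 + edge_AD h0 - 2 * h1 - 4 * uu_mul h0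

theorem edge_DE (h0 : 0 < r) : (xD r - hh r) ^ 2 + (yD r + r) ^ 2 = 4 * r ^ 2 := by
  have h1 : xD r * hh r = hh r ^ 2 * (2 * cc r - 1) := by unfold xD; ring
  have h2 : yD r * r = -(r ^ 2 * (2 * cc r + 1)) := by unfold yD; ring
  rw [hh_sq h0] at h1
  linear_combination edge_AD h0 + hh_sq h0 - 2 * h1 + 2 * h2 - 4 * cc_mul h0

theorem edge_CA (h0 : 0 < r) : xC r ^ 2 + yC r ^ 2 = 4 := by
  unfold xC yC
  linear_combination (1 / 4 + √3 ^ 2 / 4) * edge_AB h0 + q_sq

theorem edge_BC (h0 : 0 < r) : (xB r - xC r) ^ 2 + (yB r - yC r) ^ 2 = 4 := by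
  unfold xC yC
  linear_combination (1 / 4 + √3 ^ 2 / 4) * edge_AB h0 + q_sq

end identities

theorem pp_edges {r : ℝ} (h0 : 0 < r) (hg : gg r = 0) : ∀ e ∈ edgeList,
    (radius (pp r) e.1 + radius (pp r) e.2) ^ 2 =
      ((centre (pp r) e.1).1 - (centre (pp r) e.2).1) ^ 2 +
        ((centre (pp r) e.1).2 - (centre (pp r) e.2).2) ^ 2 := by
  intro e he
  simp only [edgeList, List.mem_cons, List.not_mem_nil, or_false] at he
  have hg' : (xK r - xC r) * (xK r - xC r) + (2 * r - yC r) * (2 * r - yC r) -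
    (1 + r) * (1 + r) = 0 := hg
  have hK : xK r = hh r + √3 * r := rfl
  rcases he with rfl | rfl | rfl | rfl | rfl | rfl | rfl | rfl | rfl | rfl | rfl | rfl | rfl | rfl <;>
    simp only [radius, centre, pp, Matrix.cons_val]
  · linear_combination -edge_AB h0
  · linear_combination -edge_BC h0
  · linear_combination -edge_CA h0
  · linear_combination -edge_AD h0
  · linear_combination -edge_BD h0
  · linear_combination -hh_sq h0
  · linear_combination -edge_DE h0
  · linear_combination -hh_sq h0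
  · ring
  · rw [hK]; linear_combination (-r ^ 2) * q_sq
  · rw [hK]; linear_combination (-r ^ 2) * q_sq
  · rw [hK]; linear_combination (-r ^ 2) * q_sq
  · ring
  · linear_combination -hg'

def phatZ : Fin 8 → ℤ × ℤ × ℤ :=
  ![(0, 0, 1000000), (1745881, -975653, 1000000), (1717881, 1024151, 1000000),
    (1044891, -180131, 60304), (1058587, -60304, 60304), (1058587, 60304, 60304),
    (1163036, 0, 60304), (1163036, 120607, 60304)]

theorem pp_approx {r : ℝ} (hr : |r - (150759 / 2500000)| ≤ 1 / 10000000) :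
    Approx 1000000 15 (pp r) phatZ := by
  obtain ⟨h1, h2, h3, h4, h5, h6, h7, h8⟩ := case_m r hr
  rw [abs_le] at *
  intro i
  fin_cases i <;> simp only [pp, phatZ, abs_le, Fin.zero_eta, Fin.mk_one, Fin.reduceFinMk,
    Matrix.cons_val] <;> push_cast <;> refine ⟨⟨?_, ?_⟩, ⟨?_, ?_⟩, ⟨?_, ?_⟩⟩ <;>
    linarith [h1.1, h1.2, h2.1, h2.2, h3.1, h3.2, h4.1, h4.2, h5.1, h5.2, h6.1, h6.2, h7.1, h7.2,
      h8.1, h8.2, hr.1, hr.2]

theorem phat_good : GoodZ 15 phatZ where
  ccw := by decide +kernel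
  out := by decide +kernel
  inner := by decide +kernel

theorem phat_apart : apartZ 15 phatZ := by decide +kernel

theorem pp_radius (r : ℝ) (i : Fin 8) : radius (pp r) i = if i = 0 ∨ i = 1 ∨ i = 2 then 1 else r := by
  fin_cases i <;> simp [radius, pp]

theorem pp_mem {r : ℝ} (hr : |r - (150759 / 2500000)| ≤ 1 / 10000000) (hg : gg r = 0) :
    pp r ∈ packings G D := by
  have h0 : 0 < r := by
    rw [abs_le] at hr; linarith [hr.1]
  refine mem_packings (by norm_num) (pp_approx hr) phat_good (fun i => ?_) (pp_edges h0 hg)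
  rw [pp_radius]
  split_ifs
  · exact one_pos
  · exact h0

theorem nonOverlapping_of_apart {S : ℝ} {t : ℤ} {p : Fin 8 → ℝ × ℝ × ℝ} {P : Fin 8 → ℤ × ℤ × ℤ}
    (hS : 0 < S) (h : Approx S t p P) (ha : apartZ t P) (hp : p ∈ packings G D) :
    NonOverlapping p := by
  intro i j hij
  rcases ha i j hij with h1 | h1
  · exact (hp.2.1 i j h1).le
  · exact far_of_farZ hS h h1

end Pool.Agent.Helper67.Rad
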